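import Pool.Agent.N208.KP.Res

set_option autoImplicit false
set_option linter.unusedSectionVars false

/-!
# Products of abelian varieties of spin type: full subalgebras
-/

open Module Matrix TensorProduct

noncomputable section

namespace Pool.Agent.N208.KP

open Pool.Agent.Y102 Pool.Agent.Y102.SP Pool.Agent.W516.DR

variable {g : ℕ} (A : AbVar g) {m : ℕ} (P : Fin m → Module.End ℚ A.H1)

/-- The Lie algebra of the factor. -/
def blk (i : Fin m) : Submodule ℚ (Module.End ℚ A.H1) := A.NA.map (LinearMap.mulLeft ℚ (P i))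

/-- The spin data of a factor. -/
structure Spin (p : Module.End ℂ (ℂ ⊗[ℚ] A.H1)) (L : Submodule ℂ (Module.End ℂ (ℂ ⊗[ℚ] A.H1)))
    {N k : ℕ} (E : Fin N → Module.End ℂ (ℂ ⊗[ℚ] A.H1)) (c : Fin N → Fin k) (r : ℕ) : Prop where
  sq : ∀ a, E a * E a = p
  anti : ∀ a b, a ≠ b → E a * E b = -(E b * E a)
  left : ∀ a, p * E a = E a
  right : ∀ a, E a * p = E a
  size : ∀ a, csize c (c a) = r
  lie : L.map (LinearMap.mulLeft ℂ p) = soC E c

/-- The abelian variety is isogenous to a product of abelian varieties of spin type. -/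
structure Blocks (r : Fin m → ℕ) : Prop where
  idem : ∀ i, P i * P i = P i
  orth : ∀ i j, i ≠ j → P i * P j = 0
  sum : ∑ i, P i = 1
  com : ∀ i, ∀ X ∈ A.NA, X * P i = P i * X
  hom : ∀ i j, i ≠ j → ∀ Q : Module.End ℚ A.H1, (∀ X ∈ A.NA, X * Q = Q * X) →
    P i * Q * P j = 0
  simple : ∀ i, ∀ J : Submodule ℚ (Module.End ℚ A.H1), J ≤ blk A P i →
    (∀ X ∈ A.NA, ∀ Y ∈ J, X * Y - Y * X ∈ J) → J = ⊥ ∨ J = blk A P i
  ne : ∀ i, P i ≠ 0
  size : ∀ i, 6 ≤ r i
  eight : ∀ i j, r i = 8 → r j = 8 → i = j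
  spin : ∀ i, ∃ (N k : ℕ) (E : Fin N → Module.End ℂ (ℂ ⊗[ℚ] A.H1)) (c : Fin N → Fin k),
    0 < N ∧ Spin A ((P i).baseChange ℂ) (cx A.NA) E c (r i)

variable {A P} {r : Fin m → ℕ}

section one

variable {p : Module.End ℂ (ℂ ⊗[ℚ] A.H1)} {L : Submodule ℂ (Module.End ℂ (ℂ ⊗[ℚ] A.H1))}
  {N k : ℕ} {E : Fin N → Module.End ℂ (ℂ ⊗[ℚ] A.H1)} {c : Fin N → Fin k} {s : ℕ}

theorem Spin.ce (h : Spin A p L E c s) (hp : p * p = p) : CE fun a => res p (E a) := by
  have hc : ∀ a, E a * p = p * E a := fun a => by rw [h.left, h.right]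
  refine ⟨fun a => ?_, fun a b hab => ?_⟩
  · rw [← res_mul hp (hc a), h.sq, res_self hp]
  · rw [← res_mul hp (hc a), h.anti a b hab, map_neg, res_mul hp (hc b)]

theorem Spin.map (h : Spin A p L E c s) (hp : p * p = p) :
    L.map (res p) = soC (fun a => res p (E a)) c := by
  have hc : ∀ a, E a * p = p * E a := fun a => by rw [h.left, h.right]
  have h1 : L.map (res p) = (L.map (LinearMap.mulLeft ℂ p)).map (res p) := by
    ext y
    constructor
    · rintro ⟨x, hx, rfl⟩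
      exact ⟨p * x, ⟨x, hx, rfl⟩, res_p_mul hp x⟩
    · rintro ⟨_, ⟨x, hx, rfl⟩, rfl⟩
      exact ⟨x, hx, (res_p_mul hp x).symm⟩
  rw [h1, h.lie]
  unfold soC
  rw [Submodule.map_span]
  congr 1
  ext y
  constructor
  · rintro ⟨_, ⟨i, j, hij, hc', rfl⟩, rfl⟩
    exact ⟨i, j, hij, hc', res_mul hp (hc i)⟩
  · rintro ⟨i, j, hij, hc', rfl⟩
    exact ⟨_, ⟨i, j, hij, hc', rfl⟩, res_mul hp (hc i)⟩

end one

variable {𝔮 : Submodule ℚ (Module.End ℚ A.H1)}

theorem Blocks.cx_com (hb : Blocks A P r) (i : Fin m) {X : Module.End ℂ (ℂ ⊗[ℚ] A.H1)}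
    (hX : X ∈ cx A.NA) : X * (P i).baseChange ℂ = (P i).baseChange ℂ * X := by
  symm
  refine cx_comm (S := A.NA) (fun X hX => ?_) X hX
  rw [← bc_mul, ← bc_mul, hb.com i X hX]

theorem Blocks.bc_idem (hb : Blocks A P r) (i : Fin m) :
    (P i).baseChange ℂ * (P i).baseChange ℂ = ((P i).baseChange ℂ : Module.End ℂ _) := by
  rw [← bc_mul, hb.idem]

/-- The image of the idempotent is not zero. -/
theorem Blocks.nontriv (hb : Blocks A P r) (i : Fin m) :
    Nontrivial (LinearMap.range ((P i).baseChange ℂ : Module.End ℂ (ℂ ⊗[ℚ] A.H1))) := by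
  rw [Submodule.nontrivial_iff_ne_bot]
  intro h
  rw [LinearMap.range_eq_bot] at h
  apply hb.ne i
  have h1 : (P i).baseChange ℂ ∈ cx (⊥ : Submodule ℚ (Module.End ℚ A.H1)) := by
    rw [h]
    exact Submodule.zero_mem _
  exact (Submodule.mem_bot ℚ).1 (mem_of_bc h1)

/-- The image of a full subalgebra in a factor is everything. -/
theorem Blocks.surjC (hb : Blocks A P r) (hq : A.Full 𝔮) (i : Fin m) :
    (cx 𝔮).map (res ((P i).baseChange ℂ)) = (cx A.NA).map (res ((P i).baseChange ℂ)) := by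
  refine le_antisymm (Submodule.map_mono (cx_mono hq.le)) ?_
  obtain ⟨N, k, E, c, hN, hs⟩ := hb.spin i
  set p : Module.End ℂ (ℂ ⊗[ℚ] A.H1) := (P i).baseChange ℂ with hp
  have hpp : p * p = p := hb.bc_idem i
  haveI := hb.nontriv i
  have hcomm : ∀ {X}, X ∈ cx A.NA → X * p = p * X := fun {X} hX => hb.cx_com i hX
  rw [hs.map hpp]
  refine main_col (hs.ce hpp) (fun a => ?_) _ ?_ ?_ ?_
  · have h1 := hs.size a
    unfold csize at h1
    rw [h1]
    exact hb.size i
  · rw [← hs.map hpp]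
    exact Submodule.map_mono (cx_mono hq.le)
  · rintro _ ⟨x, hx, rfl⟩ _ ⟨y, hy, rfl⟩
    refine ⟨x * y - y * x, hq.cx_br' x hx y hy, ?_⟩
    rw [map_sub, res_mul hpp (hcomm (cx_mono hq.le hx)), res_mul hpp (hcomm (cx_mono hq.le hy))]
  · intro a b hab
    have hc : ∀ a, E a * p = p * E a := fun a => by rw [hs.left, hs.right]
    by_cases h1 : a = b
    · subst h1
      rw [(hs.ce hpp).sq]
      exact Subalgebra.one_mem _
    · rw [← res_mul hpp (hc a)]
      have h2 : E a * E b ∈ (cx A.NA).map (LinearMap.mulLeft ℂ p) := by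
        rw [hs.lie]
        exact Submodule.subset_span ⟨a, b, h1, hab, rfl⟩
      obtain ⟨X, hX, hXe⟩ := h2
      rw [← hXe]
      change res p (p * X) ∈ _
      rw [res_p_mul hpp]
      have h3 := hq.cx_adjoin X hX
      have key : ∀ x ∈ Algebra.adjoin ℂ (cx 𝔮 : Set (Module.End ℂ (ℂ ⊗[ℚ] A.H1))),
          x * p = p * x ∧ res p x ∈ Algebra.adjoin ℂ
            (((cx 𝔮).map (res p) : Submodule ℂ _) : Set (Module.End ℂ (LinearMap.range p))) := by
        intro x hx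
        induction hx using Algebra.adjoin_induction with
        | mem x hx =>
          exact ⟨hcomm (cx_mono hq.le hx),
            Algebra.subset_adjoin (Submodule.mem_map_of_mem hx)⟩
        | algebraMap t =>
          refine ⟨(Algebra.commutes t p), ?_⟩
          rw [Algebra.algebraMap_eq_smul_one, map_smul, res_one hpp]
          exact Subalgebra.smul_mem _ (Subalgebra.one_mem _) _
        | add x y _ _ hx hy =>
          refine ⟨by rw [add_mul, mul_add, hx.1, hy.1], ?_⟩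
          rw [map_add]
          exact Subalgebra.add_mem _ hx.2 hy.2
        | mul x y _ _ hx hy =>
          refine ⟨by rw [mul_assoc, hy.1, ← mul_assoc, hx.1, mul_assoc], ?_⟩
          rw [res_mul hpp hx.1]
          exact Subalgebra.mul_mem _ hx.2 hy.2
      exact (key X h3).2

/-- The image of a full subalgebra in a factor is everything. -/
theorem Blocks.surj (hb : Blocks A P r) (hq : A.Full 𝔮) (i : Fin m) {X : Module.End ℚ A.H1}
    (hX : X ∈ A.NA) : ∃ Y ∈ 𝔮, P i * Y = P i * X := by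
  have h1 : res ((P i).baseChange ℂ) (X.baseChange ℂ) ∈
      (cx A.NA).map (res ((P i).baseChange ℂ)) := Submodule.mem_map_of_mem (bc_mem hX)
  rw [← hb.surjC hq i] at h1
  obtain ⟨Y, hY, hYX⟩ := h1
  have hpp := hb.bc_idem i
  have h2 : res ((P i).baseChange ℂ) (Y - X.baseChange ℂ) = 0 := by rw [map_sub, hYX, sub_self]
  have h3 : (Y - X.baseChange ℂ) * (P i).baseChange ℂ =
      (P i).baseChange ℂ * (Y - X.baseChange ℂ) :=
    hb.cx_com i (Submodule.sub_mem _ (cx_mono hq.le hY) (bc_mem hX))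
  have h4 := (res_zero_iff hpp h3).1 h2
  rw [mul_sub, sub_eq_zero, ← bc_mul] at h4
  have h5 : (P i * X).baseChange ℂ ∈ cx (𝔮.map (LinearMap.mulLeft ℚ (P i))) := by
    rw [← h4]
    clear h4 h3 h2 hYX
    unfold cx extEnd at hY
    induction hY using Submodule.span_induction with
    | mem Y hY =>
      obtain ⟨Z, hZ, rfl⟩ := hY
      rw [← bc_mul]
      exact bc_mem ⟨Z, hZ, rfl⟩
    | zero => rw [mul_zero]; exact Submodule.zero_mem _
    | add a b _ _ ha hb' => rw [mul_add]; exact Submodule.add_mem _ ha hb'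
    | smul t a _ ha => rw [mul_smul_comm]; exact Submodule.smul_mem _ _ ha
  obtain ⟨Z, hZ, hZX⟩ := mem_of_bc h5
  exact ⟨Z, hZ, hZX⟩

/-- The elements of the factor which come from elements with vanishing other components. -/
def kr (P : Fin m → Module.End ℚ A.H1) (𝔮 : Submodule ℚ (Module.End ℚ A.H1)) (i : Fin m)
    (Q : Finset (Fin m)) : Submodule ℚ (Module.End ℚ A.H1) :=
  (𝔮 ⊓ ⨅ j ∈ Q, LinearMap.ker (LinearMap.mulLeft ℚ (P j))).map (LinearMap.mulLeft ℚ (P i))

theorem mem_kr {i : Fin m} {Q : Finset (Fin m)} {Z : Module.End ℚ A.H1} :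
    Z ∈ kr P 𝔮 i Q ↔ ∃ X ∈ 𝔮, (∀ j ∈ Q, P j * X = 0) ∧ P i * X = Z := by
  unfold kr
  rw [Submodule.mem_map]
  constructor
  · rintro ⟨X, hX, hXZ⟩
    rw [Submodule.mem_inf] at hX
    simp only [Submodule.mem_iInf, LinearMap.mem_ker] at hX
    exact ⟨X, hX.1, fun j hj => hX.2 j hj, hXZ⟩
  · rintro ⟨X, hX, h1, h2⟩
    refine ⟨X, ?_, h2⟩
    rw [Submodule.mem_inf]
    simp only [Submodule.mem_iInf, LinearMap.mem_ker]
    exact ⟨hX, fun j hj => h1 j hj⟩

/-- Brackets of components. -/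
theorem Blocks.br (hb : Blocks A P r) (i : Fin m) {X Y : Module.End ℚ A.H1} (hX : X ∈ A.NA)
    (hY : Y ∈ A.NA) : P i * (X * Y - Y * X) = P i * X * (P i * Y) - P i * Y * (P i * X) := by
  have h1 : ∀ {X Y : Module.End ℚ A.H1}, X ∈ A.NA → P i * X * (P i * Y) = P i * (X * Y) := by
    intro X Y hX
    rw [mul_assoc, ← mul_assoc X, hb.com i X hX, mul_assoc, ← mul_assoc (P i) (P i), hb.idem]
  rw [h1 hX, h1 hY, mul_sub]

theorem Blocks.br' (hb : Blocks A P r) (i : Fin m) {X Y : Module.End ℚ A.H1} (hX : X ∈ A.NA)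
    (_hY : Y ∈ A.NA) : X * (P i * Y) - P i * Y * X = P i * (X * Y - Y * X) := by
  rw [← mul_assoc, hb.com i X hX, mul_sub, mul_assoc, mul_assoc]

theorem Blocks.kr_ideal (hb : Blocks A P r) (hq : A.Full 𝔮) (i : Fin m) (Q : Finset (Fin m)) :
    kr P 𝔮 i Q = ⊥ ∨ kr P 𝔮 i Q = blk A P i := by
  refine hb.simple i _ ?_ ?_
  · intro Z hZ
    obtain ⟨X, hX, -, rfl⟩ := mem_kr.1 hZ
    exact ⟨X, hq.le hX, rfl⟩
  · intro X hX Z hZ
    obtain ⟨Y, hY, h1, rfl⟩ := mem_kr.1 hZ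
    obtain ⟨X', hX', hXX⟩ := hb.surj hq i hX
    refine mem_kr.2 ⟨X' * Y - Y * X', hq.br X' hX' Y hY, fun j hj => ?_, ?_⟩
    · rw [hb.br j (hq.le hX') (hq.le hY), h1 j hj, mul_zero, zero_mul, sub_zero]
    · rw [hb.br' i hX (hq.le hY), hb.br i (hq.le hX') (hq.le hY), hXX,
        ← hb.br i hX (hq.le hY)]

theorem Blocks.blk_ne (hb : Blocks A P r) (i : Fin m) : blk A P i ≠ ⊥ := by
  intro h
  obtain ⟨N, k, E, c, hN, hs⟩ := hb.spin i
  have hpp := hb.bc_idem i
  haveI := hb.nontriv i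
  have h6 : 6 ≤ csize c (c ⟨0, hN⟩) := by rw [hs.size]; exact hb.size i
  have h1 := soS_ne (hs.ce hpp) h6
  apply h1
  rw [eq_bot_iff]
  refine (soS_le _).trans ?_
  rw [← hs.map hpp]
  rintro _ ⟨X, hX, rfl⟩
  rw [Submodule.mem_bot, ← res_p_mul hpp]
  have h2 : ∀ X ∈ A.NA, P i * X = 0 := by
    intro X hX
    have h3 : P i * X ∈ blk A P i := ⟨X, hX, rfl⟩
    rwa [h, Submodule.mem_bot] at h3
  have h3 : (P i).baseChange ℂ * X = 0 := by
    have h4 : X ∈ cx A.NA := hX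
    unfold cx extEnd at h4
    clear hX
    induction h4 using Submodule.span_induction with
    | mem Y hY =>
      obtain ⟨Z, hZ, rfl⟩ := hY
      rw [← bc_mul, h2 Z hZ, LinearMap.baseChange_zero]
    | zero => rw [mul_zero]
    | add a b _ _ ha hb' => rw [mul_add, ha, hb', add_zero]
    | smul t a _ ha => rw [mul_smul_comm, ha, smul_zero]
  rw [h3, map_zero]

end Pool.Agent.N208.KP
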