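import Pool.Agent.N208.KP.Rot
import Pool.Agent.Y102.SP.Simple

set_option autoImplicit false
set_option linter.unusedSectionVars false

/-!
# Isomorphisms of orthogonal Lie algebras in Clifford algebras
-/

open Module Matrix

noncomputable section

namespace Pool.Agent.N208.KP

open Pool.Agent.Y102.SP

variable {U : Type} [AddCommGroup U] [Module ℂ U] {n : ℕ} {E : Fin n → Module.End ℂ U}

/-- The element of the Clifford algebra of a matrix. -/
def qE (E : Fin n → Module.End ℂ U) : Matrix (Fin n) (Fin n) ℂ →ₗ[ℂ] Module.End ℂ U where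
  toFun X := (1 / 4 : ℂ) • ∑ a, ∑ b, X a b • (E a * E b)
  map_add' X Y := by
    simp only [Matrix.add_apply, add_smul, Finset.sum_add_distrib, smul_add]
  map_smul' c X := by
    simp only [Matrix.smul_apply, smul_eq_mul, mul_smul, ← Finset.smul_sum, RingHom.id_apply]
    rw [smul_comm]

theorem qE_apply (X : Matrix (Fin n) (Fin n) ℂ) :
    qE E X = (1 / 4 : ℂ) • ∑ a, ∑ b, X a b • (E a * E b) := rfl

theorem anti' (hE : CE E) (a b : Fin n) :
    E a * E b = (if a = b then (2 : ℂ) else 0) • (1 : Module.End ℂ U) - E b * E a := by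
  split_ifs with h
  · subst h
    rw [hE.sq, two_smul, add_sub_cancel_right]
  · rw [zero_smul, zero_sub, hE.anti a b h]

theorem three (hE : CE E) (a b c : Fin n) : E a * E b * E c - E c * (E a * E b) =
    (if b = c then (2 : ℂ) else 0) • E a - (if a = c then (2 : ℂ) else 0) • E b := by
  have h1 := anti' hE b c
  have h2 := anti' hE a c
  rw [mul_assoc, h1, mul_sub, mul_smul_comm, mul_one, ← mul_assoc, h2, sub_mul, smul_mul_assoc,
    one_mul]
  rw [mul_assoc]
  abel

/-- The bracket with a generator. -/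
theorem qE_br (hE : CE E) {X : Matrix (Fin n) (Fin n) ℂ} (hX : X ∈ Sk n) (c : Fin n) :
    qE E X * E c - E c * qE E X = ∑ a, X a c • E a := by
  have hsk : ∀ a b, X a b = -X b a := fun a b => congrFun (congrFun (mem_Sk.1 hX) b) a
  rw [qE_apply, smul_mul_assoc, mul_smul_comm, ← smul_sub, Finset.sum_mul, Finset.mul_sum,
    ← Finset.sum_sub_distrib]
  have h1 : ∀ a, (∑ b, X a b • (E a * E b)) * E c - E c * ∑ b, X a b • (E a * E b) =
      (2 : ℂ) • (X a c • E a) - (if a = c then (2 : ℂ) else 0) • ∑ b, X a b • E b := by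
    intro a
    rw [Finset.sum_mul, Finset.mul_sum, ← Finset.sum_sub_distrib]
    have h2 : ∀ b, X a b • (E a * E b) * E c - E c * X a b • (E a * E b) =
        (if b = c then (2 : ℂ) • (X a c • E a) else 0) -
          (if a = c then (2 : ℂ) else 0) • (X a b • E b) := by
      intro b
      rw [smul_mul_assoc, mul_smul_comm, ← smul_sub, three hE, smul_sub]
      congr 1
      · split_ifs with h
        · subst h
          rw [smul_comm]
        · rw [zero_smul, smul_zero]
      · rw [smul_comm]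
    rw [Finset.sum_congr rfl fun b _ => h2 b, Finset.sum_sub_distrib, Finset.sum_ite_eq',
      if_pos (Finset.mem_univ c), Finset.smul_sum]
  rw [Finset.sum_congr rfl fun a _ => h1 a, Finset.sum_sub_distrib]
  have h3 : ∑ a, (if a = c then (2 : ℂ) else 0) • ∑ b, X a b • E b =
      (2 : ℂ) • ∑ b, X c b • E b := by
    rw [Finset.sum_eq_single c]
    · rw [if_pos rfl]
    · intro a _ ha
      rw [if_neg ha, zero_smul]
    · intro h
      exact absurd (Finset.mem_univ _) h
  have h4 : ∑ b, X c b • E b = -∑ a, X a c • E a := by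
    rw [← Finset.sum_neg_distrib]
    exact Finset.sum_congr rfl fun b _ => by rw [hsk c b, neg_smul]
  rw [h3, h4, ← Finset.smul_sum, smul_neg, sub_neg_eq_add, ← add_smul, smul_smul]
  norm_num

/-- The map is a homomorphism of Lie algebras. -/
theorem qE_lie (hE : CE E) {X Y : Matrix (Fin n) (Fin n) ℂ} (hX : X ∈ Sk n) :
    qE E (X * Y - Y * X) = qE E X * qE E Y - qE E Y * qE E X := by
  have hsk : ∀ a b, X a b = -X b a := fun a b => congrFun (congrFun (mem_Sk.1 hX) b) a
  have h1 : ∀ c d, qE E X * (E c * E d) - E c * E d * qE E X =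
      ∑ a, (X a c • (E a * E d) + X a d • (E c * E a)) := by
    intro c d
    have h2 : qE E X * (E c * E d) - E c * E d * qE E X =
        (qE E X * E c - E c * qE E X) * E d + E c * (qE E X * E d - E d * qE E X) := by
      noncomm_ring
    rw [h2, qE_br hE hX, qE_br hE hX, Finset.sum_mul, Finset.mul_sum, ← Finset.sum_add_distrib]
    exact Finset.sum_congr rfl fun a _ => by rw [smul_mul_assoc, mul_smul_comm]
  have h3 : qE E X * qE E Y - qE E Y * qE E X = (1 / 4 : ℂ) • ∑ c, ∑ d, Y c d •
      ∑ a, (X a c • (E a * E d) + X a d • (E c * E a)) := by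
    rw [qE_apply Y, mul_smul_comm, smul_mul_assoc, ← smul_sub, Finset.mul_sum, Finset.sum_mul,
      ← Finset.sum_sub_distrib]
    congr 1
    refine Finset.sum_congr rfl fun c _ => ?_
    rw [Finset.mul_sum, Finset.sum_mul, ← Finset.sum_sub_distrib]
    refine Finset.sum_congr rfl fun d _ => ?_
    rw [mul_smul_comm, smul_mul_assoc, ← smul_sub, h1]
  rw [h3, qE_apply]
  congr 1
  simp only [smul_add, Finset.sum_add_distrib, Finset.smul_sum, smul_smul]
  have h4 : ∀ a b, (X * Y - Y * X) a b • (E a * E b) =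
      ∑ c, (Y c b * X a c) • (E a * E b) + ∑ c, (Y a c * X b c) • (E a * E b) := by
    intro a b
    rw [← Finset.sum_smul, ← Finset.sum_smul, ← add_smul]
    congr 1
    rw [Matrix.sub_apply, Matrix.mul_apply, Matrix.mul_apply, sub_eq_add_neg,
      ← Finset.sum_neg_distrib]
    congr 1
    · exact Finset.sum_congr rfl fun c _ => mul_comm _ _
    · exact Finset.sum_congr rfl fun c _ => by rw [hsk b c]; ring
  simp only [h4, Finset.sum_add_distrib]
  congr 1
  · -- `∑ a b c` and `∑ c d a`
    have e1 : ∑ a, ∑ b, ∑ c, (Y c b * X a c) • (E a * E b) =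
        ∑ c, ∑ a, ∑ b, (Y c b * X a c) • (E a * E b) := by
      rw [Finset.sum_congr rfl fun a _ => Finset.sum_comm]
      exact Finset.sum_comm
    rw [e1]
    exact Finset.sum_congr rfl fun c _ => Finset.sum_comm
  · refine Finset.sum_congr rfl fun a _ => ?_
    exact Finset.sum_comm

theorem qE_eab (hE : CE E) {a b : Fin n} (hab : a ≠ b) :
    qE E (eab a b) = (1 / 2 : ℂ) • (E a * E b) := by
  have h1 : ∀ a b : Fin n, qE E (Matrix.single a b 1) = (1 / 4 : ℂ) • (E a * E b) := by
    intro a b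
    rw [qE_apply]
    congr 1
    rw [Finset.sum_eq_single a, Finset.sum_eq_single b]
    · rw [Matrix.single_apply_same, one_smul]
    · intro c _ hc
      rw [Matrix.single_apply_of_ne _ _ _ _ _ (fun h => hc h.2.symm), zero_smul]
    · intro h
      exact absurd (Finset.mem_univ _) h
    · intro c _ hc
      refine Finset.sum_eq_zero fun d _ => ?_
      rw [Matrix.single_apply_of_ne _ _ _ _ _ (fun h => hc h.1.symm), zero_smul]
    · intro h
      exact absurd (Finset.mem_univ _) h
  unfold eab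
  rw [map_sub, h1, h1, hE.anti b a (Ne.symm hab), smul_neg, sub_neg_eq_add, ← add_smul]
  norm_num

theorem qE_mem {X : Matrix (Fin n) (Fin n) ℂ} (hX : X ∈ Sk n) :
    qE E X ∈ soE E := by
  have hsk : ∀ a b, X a b = -X b a := fun a b => congrFun (congrFun (mem_Sk.1 hX) b) a
  rw [qE_apply]
  refine Submodule.smul_mem _ _ (Submodule.sum_mem _ fun a _ => Submodule.sum_mem _ fun b _ => ?_)
  by_cases h : a = b
  · subst h
    have h1 : X a a = 0 := by
      have h3 := hsk a a
      linear_combination (1 / 2 : ℂ) * h3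
    rw [h1, zero_smul]
    exact Submodule.zero_mem _
  · exact Submodule.smul_mem _ _ (Submodule.subset_span ⟨a, b, h, rfl⟩)

variable [FiniteDimensional ℂ U] [Nontrivial U]

theorem qE_inj (hE : CE E) {X : Matrix (Fin n) (Fin n) ℂ} (hX : X ∈ Sk n) (h0 : qE E X = 0) :
    X = 0 := by
  ext a c
  have h1 := qE_br hE hX c
  rw [h0, zero_mul, mul_zero, sub_zero] at h1
  have h2 := Fintype.linearIndependent_iff.1 (Cl_indep hE) (fun a => X a c) h1.symm a
  exact h2

/-- The isomorphism with the skew-symmetric matrices. -/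
def sqE (hE : CE E) : Sk n ≃ₗ[ℂ] soE E :=
  LinearEquiv.ofBijective (LinearMap.codRestrict (soE E) ((qE E).domRestrict (Sk n))
    fun X => qE_mem X.2) (by
    constructor
    · rw [← LinearMap.ker_eq_bot, LinearMap.ker_eq_bot']
      intro X hX
      apply Subtype.ext
      exact qE_inj hE X.2 (congrArg Subtype.val hX)
    · rintro ⟨x, hx⟩
      have h1 : soE E ≤ (Sk n).map (qE E) := by
        refine Submodule.span_le.2 ?_
        rintro _ ⟨a, b, hab, rfl⟩
        refine ⟨(2 : ℂ) • eab a b, (Sk n).smul_mem _ (eab_mem a b), ?_⟩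
        rw [map_smul, qE_eab hE hab, smul_smul]
        norm_num
      obtain ⟨X, hX, hXx⟩ := h1 hx
      exact ⟨⟨X, hX⟩, Subtype.ext hXx⟩)

theorem sqE_val (hE : CE E) (X : Sk n) : (sqE hE X).1 = qE E X.1 := rfl

/-- A vector of the Clifford algebra. -/
def vc (E : Fin n → Module.End ℂ U) (u : Fin n → ℂ) : Module.End ℂ U := ∑ a, u a • E a

theorem vc_anti (hE : CE E) (u v : Fin n → ℂ) :
    vc E u * vc E v + vc E v * vc E u = (2 * (u ⬝ᵥ v)) • (1 : Module.End ℂ U) := by
  unfold vc
  rw [Finset.sum_mul_sum, Finset.sum_mul_sum, Finset.sum_comm (f := fun i j => v i • E i * u j • E j),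
    ← Finset.sum_add_distrib]
  have h1 : ∀ a, ∑ b, u a • E a * v b • E b + ∑ b, v b • E b * u a • E a =
      (2 * (u a * v a)) • (1 : Module.End ℂ U) := by
    intro a
    rw [← Finset.sum_add_distrib, Finset.sum_eq_single a]
    · rw [smul_mul_smul_comm, smul_mul_smul_comm, hE.sq, ← add_smul]
      congr 1
      ring
    · intro b _ hb
      rw [smul_mul_smul_comm, smul_mul_smul_comm, hE.anti b a hb, smul_neg, mul_comm (v b),
        add_neg_cancel]
    · intro h
      exact absurd (Finset.mem_univ _) h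
  rw [Finset.sum_congr rfl fun a _ => h1 a, ← Finset.sum_smul, ← Finset.mul_sum]
  rfl

theorem vc_sq (hE : CE E) {u : Fin n → ℂ} (hu : u ⬝ᵥ u = 1) : vc E u * vc E u = 1 := by
  have h1 := vc_anti hE u u
  rw [hu, mul_one, ← two_smul ℂ (vc E u * vc E u)] at h1
  have h2 := congrArg (fun x => (1 / 2 : ℂ) • x) h1
  simp only [smul_smul] at h2
  norm_num at h2
  exact h2

/-- The rotation in the plane of two vectors. -/
def rt (u v : Fin n → ℂ) : Matrix (Fin n) (Fin n) ℂ :=
  Matrix.vecMulVec v u - Matrix.vecMulVec u v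

theorem rt_mem (u v : Fin n → ℂ) : rt u v ∈ Sk n := by
  rw [mem_Sk]
  ext a b
  simp only [rt, Matrix.transpose_apply, Matrix.sub_apply, Matrix.neg_apply,
    Matrix.vecMulVec_apply]
  ring

theorem qE_rt (hE : CE E) {u v : Fin n → ℂ} (huv : u ⬝ᵥ v = 0) :
    qE E (rt u v) = (1 / 2 : ℂ) • (vc E v * vc E u) := by
  have h1 : ∀ u v : Fin n → ℂ, qE E (Matrix.vecMulVec v u) = (1 / 4 : ℂ) • (vc E v * vc E u) := by
    intro u v
    rw [qE_apply]
    congr 1
    unfold vc
    rw [Finset.sum_mul_sum]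
    refine Finset.sum_congr rfl fun a _ => Finset.sum_congr rfl fun b _ => ?_
    rw [Matrix.vecMulVec_apply, smul_mul_smul_comm]
  have h2 := vc_anti hE u v
  rw [huv, mul_zero, zero_smul] at h2
  unfold rt
  rw [map_sub, h1, h1, eq_neg_of_add_eq_zero_left h2, smul_neg, sub_neg_eq_add, ← add_smul]
  norm_num

theorem rt_sq (hE : CE E) {u v : Fin n → ℂ} (huu : u ⬝ᵥ u = 1) (hvv : v ⬝ᵥ v = 1)
    (huv : u ⬝ᵥ v = 0) : qE E (rt u v) * qE E (rt u v) = (-1 / 4 : ℂ) • (1 : Module.End ℂ U) := by
  have h2 := vc_anti hE u v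
  rw [huv, mul_zero, zero_smul] at h2
  have h3 : vc E u * vc E v = -(vc E v * vc E u) := eq_neg_of_add_eq_zero_left h2
  rw [qE_rt hE huv, smul_mul_smul_comm, mul_assoc, ← mul_assoc (vc E u), h3, neg_mul, mul_neg,
    mul_assoc, vc_sq hE huu, mul_one, vc_sq hE hvv, smul_neg, ← neg_smul]
  norm_num

theorem rt_tr {u v : Fin n → ℂ} (huu : u ⬝ᵥ u = 1) (hvv : v ⬝ᵥ v = 1)
    (huv : u ⬝ᵥ v = 0) : (rt u v * rt u v).trace = -2 := by
  have e1 : ∀ a b c d : Fin n → ℂ, (Matrix.vecMulVec a b * Matrix.vecMulVec c d).trace =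
      (b ⬝ᵥ c) * (a ⬝ᵥ d) := by
    intro a b c d
    rw [Matrix.trace]
    simp only [Matrix.diag_apply, Matrix.mul_apply, Matrix.vecMulVec_apply]
    change _ = (∑ y, b y * c y) * ∑ x, a x * d x
    rw [Finset.sum_mul_sum, Finset.sum_comm]
    exact Finset.sum_congr rfl fun x _ => Finset.sum_congr rfl fun y _ => by ring
  have hvu : v ⬝ᵥ u = 0 := by rw [dotProduct_comm, huv]
  unfold rt
  rw [Matrix.sub_mul, Matrix.mul_sub, Matrix.mul_sub, Matrix.trace_sub, Matrix.trace_sub,
    Matrix.trace_sub, e1, e1, e1, e1, huu, hvv, huv, hvu]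
  norm_num

/-- `(ad x)³ = - ad x` if `x² = - 1 / 4`. -/
theorem ad_cube {x z : Module.End ℂ U} (hx : x * x = (-1 / 4 : ℂ) • (1 : Module.End ℂ U)) :
    x * (x * (x * z - z * x) - (x * z - z * x) * x) -
      (x * (x * z - z * x) - (x * z - z * x) * x) * x = -(x * z - z * x) := by
  have h1 : x * (x * (x * z - z * x) - (x * z - z * x) * x) -
      (x * (x * z - z * x) - (x * z - z * x) * x) * x =
      (x * x) * x * z - (3 : ℂ) • ((x * x) * z * x) + (3 : ℂ) • (x * z * (x * x)) -
        z * x * (x * x) := by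
    simp only [mul_sub, sub_mul, mul_assoc]
    module
  rw [h1, hx]
  simp only [smul_mul_assoc, mul_smul_comm, one_mul, mul_one]
  module

end Pool.Agent.N208.KP
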