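import Mathlib

set_option autoImplicit false
set_option linter.unusedSectionVars false

/-!
# Intertwining operators of Clifford modules
-/

open Module

noncomputable section

namespace Pool.Agent.N208.KP

variable {U W : Type} [AddCommGroup U] [Module ℂ U] [AddCommGroup W] [Module ℂ W]

/-- The product of the first `k` operators. -/
def om (e : ℕ → Module.End ℂ U) : ℕ → Module.End ℂ U
  | 0 => 1
  | k + 1 => om e k * e k

variable {e : ℕ → Module.End ℂ U} {M : ℕ}

theorem om_comm (ha : ∀ i < M, ∀ j < M, i ≠ j → e i * e j = -(e j * e i)) :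
    ∀ k ≤ M, (∀ i < M, k ≤ i → e i * om e k = (-1 : ℂ) ^ k • (om e k * e i)) ∧
      ∀ i < k, e i * om e k = -((-1 : ℂ) ^ k • (om e k * e i)) := by
  intro k
  induction k with
  | zero =>
    intro _
    refine ⟨fun i _ _ => ?_, fun i hi => absurd hi (Nat.not_lt_zero _)⟩
    change e i * 1 = (-1 : ℂ) ^ 0 • (1 * e i)
    rw [mul_one, one_mul, pow_zero, one_smul]
  | succ k ih =>
    intro hk
    obtain ⟨h1, h2⟩ := ih (by omega)
    constructor
    · intro i hi hki
      change e i * (om e k * e k) = _ • (om e k * e k * e i)
      rw [← mul_assoc, h1 i hi (by omega), smul_mul_assoc, mul_assoc, mul_assoc,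
        ha i hi k (by omega) (by omega), mul_neg, smul_neg, pow_succ, mul_neg_one, neg_smul]
    · intro i hi
      change e i * (om e k * e k) = -(_ • (om e k * e k * e i))
      rcases Nat.lt_or_ge i k with h3 | h3
      · rw [← mul_assoc, h2 i h3, neg_mul, smul_mul_assoc, mul_assoc, mul_assoc,
          ha i (by omega) k (by omega) (by omega), mul_neg, smul_neg, pow_succ, mul_neg_one,
          neg_smul]
      · have h4 : i = k := by omega
        subst h4
        rw [← mul_assoc, h1 i (by omega) le_rfl, smul_mul_assoc, pow_succ, mul_neg_one, neg_smul,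
          neg_neg]

theorem om_unit (hs : ∀ i < M, e i * e i = -1) : ∀ k ≤ M, IsUnit (om e k) := by
  intro k
  induction k with
  | zero => exact fun _ => isUnit_one
  | succ k ih =>
    intro hk
    refine (ih (by omega)).mul ?_
    refine ⟨⟨e k, -e k, ?_, ?_⟩, rfl⟩
    · rw [mul_neg, hs k (by omega), neg_neg]
    · rw [neg_mul, hs k (by omega), neg_neg]

theorem om_mul {x : Module.End ℂ U} (hx : ∀ i < M, x * e i = e i * x) :
    ∀ k ≤ M, x * om e k = om e k * x := by
  intro k
  induction k with
  | zero =>
    intro _
    change x * 1 = 1 * x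
    rw [mul_one, one_mul]
  | succ k ih =>
    intro hk
    change x * (om e k * e k) = om e k * e k * x
    rw [← mul_assoc, ih (by omega), mul_assoc, hx k (by omega), mul_assoc]

/-- `T` intertwines the pairs of operators. -/
def Intw (C : Set (Module.End ℂ U × Module.End ℂ W)) (T : U →ₗ[ℂ] W) : Prop :=
  ∀ p ∈ C, T ∘ₗ p.1 = p.2 ∘ₗ T

theorem comp_unit_ne {T : U →ₗ[ℂ] W} (hT : T ≠ 0) {u : Module.End ℂ U} (hu : IsUnit u) :
    T ∘ₗ u ≠ 0 := by
  obtain ⟨v, rfl⟩ := hu
  intro h
  apply hT
  have h1 : T = (T ∘ₗ (v : Module.End ℂ U)) ∘ₗ ((v⁻¹ : (Module.End ℂ U)ˣ) : Module.End ℂ U) := by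
    rw [LinearMap.comp_assoc, ← Module.End.mul_eq_comp, Units.mul_inv]
    rfl
  rw [h1, h, LinearMap.zero_comp]

/-- **Existence of an intertwining operator** for `n` pairs of anticommuting operators of square
`-1`, if there are `M ≥ n` operators of this kind on the first space, `M` even. -/
theorem exists_intw {C : Set (Module.End ℂ U × Module.End ℂ W)} {T₀ : U →ₗ[ℂ] W} (hT₀ : T₀ ≠ 0)
    (hC : Intw C T₀) {f : ℕ → Module.End ℂ W} {N : ℕ} (hNM : N ≤ M) (hM : Even M)
    (hs : ∀ i < M, e i * e i = -1)
    (ha : ∀ i < M, ∀ j < M, i ≠ j → e i * e j = -(e j * e i))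
    (hs' : ∀ i < N, f i * f i = -1)
    (ha' : ∀ i < N, ∀ j < N, i ≠ j → f i * f j = -(f j * f i))
    (hCe : ∀ p ∈ C, ∀ i < M, p.1 * e i = e i * p.1)
    (hCf : ∀ p ∈ C, ∀ i < N, p.2 * f i = f i * p.2) :
    ∃ T : U →ₗ[ℂ] W, T ≠ 0 ∧ Intw C T ∧ ∀ i < N, T ∘ₗ e i = f i ∘ₗ T := by
  have key : ∀ k ≤ N, ∃ T : U →ₗ[ℂ] W, T ≠ 0 ∧ Intw C T ∧ ∀ i < k, T ∘ₗ e i = f i ∘ₗ T := by
    intro k
    induction k with
    | zero => exact fun _ => ⟨T₀, hT₀, hC, fun i hi => absurd hi (Nat.not_lt_zero _)⟩
    | succ k ih =>
      intro hk
      obtain ⟨T, h1, h2, h3⟩ := ih (by omega)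
      set T1 : U →ₗ[ℂ] W := T - f k ∘ₗ T ∘ₗ e k with hT1
      by_cases h0 : T1 = 0
      · -- the operator anticommutes
        have h4 : f k ∘ₗ T ∘ₗ e k = T := (sub_eq_zero.1 h0).symm
        have h5 : T ∘ₗ e k = -(f k ∘ₗ T) := by
          have h6 : f k ∘ₗ (f k ∘ₗ T ∘ₗ e k) = f k ∘ₗ T := by rw [h4]
          rw [← LinearMap.comp_assoc, ← Module.End.mul_eq_comp (f k) (f k), hs' k (by omega)] at h6
          rw [← h6]
          refine LinearMap.ext fun u => ?_
          simp
        rcases Nat.even_or_odd k with hke | hko
        · have hk1 : k + 1 < M := by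
            rcases Nat.lt_or_ge (k + 1) M with h | h
            · exact h
            · exfalso
              have h6 : M = k + 1 := by omega
              rw [h6] at hM
              exact (Nat.even_add_one.1 hM) hke
          set v := om e k * e (k + 1) with hv
          obtain ⟨o1, o2⟩ := om_comm ha k (by omega)
          have hvu : IsUnit v := (om_unit hs k (by omega)).mul
            ⟨⟨e (k + 1), -e (k + 1), by rw [mul_neg, hs _ hk1, neg_neg],
              by rw [neg_mul, hs _ hk1, neg_neg]⟩, rfl⟩
          have hpow : (-1 : ℂ) ^ k = 1 := hke.neg_one_pow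
          have hcomm : ∀ i < k, v * e i = e i * v := by
            intro i hi
            rw [hv, mul_assoc, ha (k + 1) hk1 i (by omega) (by omega), mul_neg, ← mul_assoc,
              ← mul_assoc, o2 i hi, hpow, one_smul, neg_mul]
          have hanti : v * e k = -(e k * v) := by
            rw [hv, mul_assoc, ha (k + 1) hk1 k (by omega) (by omega), mul_neg, ← mul_assoc,
              ← mul_assoc, o1 k (by omega) le_rfl, hpow, one_smul]
          refine ⟨T ∘ₗ v, comp_unit_ne h1 hvu, fun p hp => ?_, fun i hi => ?_⟩
          · have h6 : v * p.1 = p.1 * v := by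
              rw [hv, mul_assoc, ← hCe p hp _ hk1, ← mul_assoc, ← om_mul (hCe p hp) k (by omega),
                mul_assoc]
            rw [LinearMap.comp_assoc, ← Module.End.mul_eq_comp v, h6, Module.End.mul_eq_comp,
              ← LinearMap.comp_assoc, h2 p hp, LinearMap.comp_assoc]
          · rcases Nat.lt_or_ge i k with h6 | h6
            · rw [LinearMap.comp_assoc, ← Module.End.mul_eq_comp v, hcomm i h6,
                Module.End.mul_eq_comp, ← LinearMap.comp_assoc, h3 i h6, LinearMap.comp_assoc]
            · have h7 : i = k := by omega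
              subst h7
              rw [LinearMap.comp_assoc, ← Module.End.mul_eq_comp v, hanti, LinearMap.comp_neg,
                Module.End.mul_eq_comp, ← LinearMap.comp_assoc, h5, LinearMap.neg_comp, neg_neg,
                LinearMap.comp_assoc]
        · set v := om e k with hv
          obtain ⟨o1, o2⟩ := om_comm ha k (by omega)
          have hvu : IsUnit v := om_unit hs k (by omega)
          have hpow : (-1 : ℂ) ^ k = -1 := hko.neg_one_pow
          have hcomm : ∀ i < k, v * e i = e i * v := by
            intro i hi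
            rw [o2 i hi, hpow, neg_smul, neg_neg, one_smul]
          have hanti : v * e k = -(e k * v) := by
            rw [o1 k (by omega) le_rfl, hpow, neg_smul, neg_neg, one_smul]
          refine ⟨T ∘ₗ v, comp_unit_ne h1 hvu, fun p hp => ?_, fun i hi => ?_⟩
          · have h6 : v * p.1 = p.1 * v := (om_mul (hCe p hp) k (by omega)).symm
            rw [LinearMap.comp_assoc, ← Module.End.mul_eq_comp v, h6, Module.End.mul_eq_comp,
              ← LinearMap.comp_assoc, h2 p hp, LinearMap.comp_assoc]
          · rcases Nat.lt_or_ge i k with h6 | h6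
            · rw [LinearMap.comp_assoc, ← Module.End.mul_eq_comp v, hcomm i h6,
                Module.End.mul_eq_comp, ← LinearMap.comp_assoc, h3 i h6, LinearMap.comp_assoc]
            · have h7 : i = k := by omega
              subst h7
              rw [LinearMap.comp_assoc, ← Module.End.mul_eq_comp v, hanti, LinearMap.comp_neg,
                Module.End.mul_eq_comp, ← LinearMap.comp_assoc, h5, LinearMap.neg_comp, neg_neg,
                LinearMap.comp_assoc]
      · refine ⟨T1, h0, fun p hp => ?_, fun i hi => ?_⟩
        · refine LinearMap.ext fun u => ?_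
          have e1 : ∀ x, T (p.1 x) = p.2 (T x) := fun x => LinearMap.congr_fun (h2 p hp) x
          have e2 : e k (p.1 u) = p.1 (e k u) :=
            LinearMap.congr_fun (hCe p hp k (by omega)).symm u
          have e3 : ∀ y, f k (p.2 y) = p.2 (f k y) := fun y =>
            LinearMap.congr_fun (hCf p hp k (by omega)).symm y
          change T (p.1 u) - f k (T (e k (p.1 u))) = p.2 (T u - f k (T (e k u)))
          rw [e2, e1, e1, e3, map_sub]
        · refine LinearMap.ext fun u => ?_
          rcases Nat.lt_or_ge i k with h6 | h6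
          · have e1 : ∀ x, T (e i x) = f i (T x) := fun x => LinearMap.congr_fun (h3 i h6) x
            have e2 : e k (e i u) = -(e i (e k u)) :=
              LinearMap.congr_fun (ha k (by omega) i (by omega) (by omega)) u
            have e3 : ∀ y, f k (f i y) = -(f i (f k y)) := fun y =>
              LinearMap.congr_fun (ha' k (by omega) i (by omega) (by omega)) y
            change T (e i u) - f k (T (e k (e i u))) = f i (T u - f k (T (e k u)))
            rw [e2, map_neg, e1, e1, map_neg, e3, neg_neg, map_sub]
          · have h7 : i = k := by omega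
            subst h7
            have e1 : ∀ x, e i (e i x) = -x := fun x => LinearMap.congr_fun (hs i (by omega)) x
            have e2 : ∀ y, f i (f i y) = -y := fun y => LinearMap.congr_fun (hs' i (by omega)) y
            change T (e i u) - f i (T (e i (e i u))) = f i (T u - f i (T (e i u)))
            rw [e1, map_neg, map_neg, map_sub, e2]
            abel
  exact key N le_rfl

end Pool.Agent.N208.KP
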