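import Pool.Agent.N208.KP.One

set_option autoImplicit false
set_option linter.unusedSectionVars false

/-!
# Intertwining operators for isomorphic sums of orthogonal Lie algebras
-/

open Module Matrix

noncomputable section

namespace Pool.Agent.N208.KP

open Pool.Agent.Y102.SP

variable {U W : Type} [AddCommGroup U] [Module ℂ U] [AddCommGroup W] [Module ℂ W]
  {N M k l : ℕ}
  {E : Fin N → Module.End ℂ U} {F : Fin M → Module.End ℂ W} {c : Fin N → Fin k} {d : Fin M → Fin l}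

/-- The number of the elements of a colour. -/
def csize (c : Fin N → Fin k) (σ : Fin k) : ℕ := (Finset.univ.filter fun j => c j = σ).card

/-- The subfamily of one colour. -/
theorem sub_col (hE : CE E) (c : Fin N → Fin k) (s : Fin k) :
    ∃ E' : Fin (csize c s) → Module.End ℂ U, CE E' ∧ soE E' = soS E c s ∧
      ∀ a, ∃ i, c i = s ∧ E' a = E i := by
  classical
  set G := Finset.univ.filter fun j => c j = s with hG
  let e := G.equivFin
  have hmem : ∀ a : G, c a.1 = s := fun a => (Finset.mem_filter.1 a.2).2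
  have hinj : ∀ a b : Fin G.card, a ≠ b → (e.symm a).1 ≠ (e.symm b).1 := by
    intro a b hab h
    exact hab (e.symm.injective (Subtype.ext h))
  refine ⟨fun a => E (e.symm a).1, ⟨fun a => hE.sq _, fun a b hab =>
    hE.anti _ _ (hinj a b hab)⟩, ?_, fun a => ⟨_, hmem _, rfl⟩⟩
  refine le_antisymm (Submodule.span_mono ?_) (Submodule.span_mono ?_)
  · rintro _ ⟨a, b, hab, rfl⟩
    exact ⟨_, _, hinj a b hab, hmem _, hmem _, rfl⟩
  · rintro _ ⟨i, j, hij, hi, hj, rfl⟩
    refine ⟨e ⟨i, Finset.mem_filter.2 ⟨Finset.mem_univ _, hi⟩⟩,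
      e ⟨j, Finset.mem_filter.2 ⟨Finset.mem_univ _, hj⟩⟩, ?_, ?_⟩
    · intro h
      exact hij (congrArg Subtype.val (e.injective h))
    · simp

theorem soC_br (hE : CE E) {x y : Module.End ℂ U} (hx : x ∈ soC E c) (hy : y ∈ soC E c) :
    x * y - y * x ∈ soC E c := by
  have e : x * y - y * x = ∑ s, (x * pS E c s y - pS E c s y * x) := by
    conv_lhs => rw [pS_sum hE hy]
    rw [Finset.mul_sum, Finset.sum_mul, ← Finset.sum_sub_distrib]
  rw [e]
  refine Submodule.sum_mem _ fun s _ => ?_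
  rw [Link_part hE (pS_mem hE hy) hx]
  exact soS_le s (soS_br hE (pS_mem hE hx) (pS_mem hE hy))

theorem soS_ideal (hE : CE E) {σ : Fin k} {x y : Module.End ℂ U} (hx : x ∈ soC E c)
    (hy : y ∈ soS E c σ) : x * y - y * x ∈ soS E c σ := by
  rw [Link_part hE hy hx]
  exact soS_br hE (pS_mem hE hx) hy

variable [FiniteDimensional ℂ U] [Nontrivial U] [FiniteDimensional ℂ W] [Nontrivial W]

omit [FiniteDimensional ℂ W] [Nontrivial W] in
theorem soS_simple (hE : CE E) {s : Fin k} (hs : 6 ≤ csize c s)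
    (J : Submodule ℂ (Module.End ℂ U)) (hJ : J ≤ soS E c s)
    (hbr : ∀ x ∈ soS E c s, ∀ y ∈ J, x * y - y * x ∈ J) : J = ⊥ ∨ J = soS E c s :=
  ColMain_simple hE hs J hJ hbr

theorem soS_ne (hE : CE E) {s : Fin k} (hs : 6 ≤ csize c s) : soS E c s ≠ ⊥ := by
  obtain ⟨i, hi, j, hj, hij⟩ := Finset.one_lt_card.1 (lt_of_lt_of_le (by norm_num : 1 < 6) hs)
  intro h
  have h1 : E i * E j ∈ soS E c s := Submodule.subset_span
    ⟨i, j, hij, (Finset.mem_filter.1 hi).2, (Finset.mem_filter.1 hj).2, rfl⟩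
  rw [h, Submodule.mem_bot] at h1
  exact ColMain_ne hE hij h1

section match_

variable (hE : CE E) (hF : CE F) {θ : soC E c ≃ₗ[ℂ] soC F d} (hθ : LieIso θ)

/-- The image of a subspace. -/
def img (θ : soC E c ≃ₗ[ℂ] soC F d) (S : Submodule ℂ (Module.End ℂ U)) :
    Submodule ℂ (Module.End ℂ W) :=
  ((S.comap (soC E c).subtype).map θ.toLinearMap).map (soC F d).subtype

theorem mem_img {S : Submodule ℂ (Module.End ℂ U)} {y : Module.End ℂ W} :
    y ∈ img θ S ↔ ∃ x : soC E c, x.1 ∈ S ∧ (θ x).1 = y := by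
  constructor
  · rintro ⟨_, ⟨x, hx, rfl⟩, rfl⟩
    exact ⟨x, hx, rfl⟩
  · rintro ⟨x, hx, rfl⟩
    exact ⟨_, ⟨x, hx, rfl⟩, rfl⟩

theorem img_le (S : Submodule ℂ (Module.End ℂ U)) : img θ S ≤ soC F d := by
  intro y hy
  obtain ⟨x, -, rfl⟩ := mem_img.1 hy
  exact (θ x).2

include hE hθ in
theorem img_ideal {σ : Fin k} {y z : Module.End ℂ W} (hy : y ∈ soC F d)
    (hz : z ∈ img θ (soS E c σ)) : y * z - z * y ∈ img θ (soS E c σ) := by
  obtain ⟨z', hz', rfl⟩ := mem_img.1 hz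
  obtain ⟨y', hy'⟩ := θ.surjective ⟨y, hy⟩
  have h1 : (θ y').1 = y := congrArg Subtype.val hy'
  refine mem_img.2 ⟨⟨_, soC_br hE y'.2 z'.2⟩, soS_ideal hE y'.2 hz', ?_⟩
  rw [hθ y' z' _ rfl, h1]

include hE hF hθ in
/-- The image of a colour is a colour. -/
theorem exists_match (hd : ∀ j, 6 ≤ csize d (d j)) {σ : Fin k} (hσ : 6 ≤ csize c σ) :
    ∃ τ, 6 ≤ csize d τ ∧ img θ (soS E c σ) = soS F d τ := by
  -- a nonzero element
  obtain ⟨x, hx, hx0⟩ := (Submodule.ne_bot_iff _).1 (soS_ne hE hσ)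
  have hz0 : (θ ⟨x, soS_le σ hx⟩).1 ≠ 0 := by
    intro h
    have h1 : θ ⟨x, soS_le σ hx⟩ = 0 := Subtype.ext h
    rw [LinearEquiv.map_eq_zero_iff] at h1
    exact hx0 (congrArg Subtype.val h1)
  set z := (θ ⟨x, soS_le σ hx⟩).1 with hz
  have hzJ : z ∈ img θ (soS E c σ) := mem_img.2 ⟨_, hx, rfl⟩
  have hzC : z ∈ soC F d := img_le _ hzJ
  obtain ⟨τ, hτ⟩ : ∃ τ, pS F d τ z ≠ 0 := by
    by_contra hcon
    push Not at hcon
    apply hz0
    rw [pS_sum hF hzC]
    exact Finset.sum_eq_zero fun τ _ => hcon τ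
  have hτ6 : 6 ≤ csize d τ := by
    by_contra hcon
    have h1 : ∀ i, d i ≠ τ := by
      intro i hi
      apply hcon
      rw [← hi]
      exact hd i
    exact hτ (ColMain_empty h1 z)
  -- the projection to the colour
  have h1 : (img θ (soS E c σ)).map (pS F d τ) = soS F d τ := by
    have g1 : (img θ (soS E c σ)).map (pS F d τ) ≤ soS F d τ := by
      rintro _ ⟨y, hy, rfl⟩
      exact pS_mem hF (img_le _ hy)
    have g2 : ∀ x ∈ soS F d τ, ∀ y ∈ (img θ (soS E c σ)).map (pS F d τ),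
        x * y - y * x ∈ (img θ (soS E c σ)).map (pS F d τ) := by
      rintro y hy _ ⟨w, hw, rfl⟩
      refine ⟨y * w - w * y, img_ideal hE hθ (soS_le τ hy) hw, ?_⟩
      rw [pS_br hF (soS_le τ hy) (img_le _ hw), pS_same hF hy]
    rcases soS_simple hF hτ6 _ g1 g2 with h | h
    · exfalso
      have h2 : pS F d τ z ∈ (img θ (soS E c σ)).map (pS F d τ) := Submodule.mem_map_of_mem hzJ
      rw [h, Submodule.mem_bot] at h2
      exact hτ h2
    · exact h
  -- the colour is contained in the image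
  have h2 : soS F d τ ≤ img θ (soS E c σ) := by
    refine (ColMain_perfect hF hτ6).trans (Submodule.span_le.2 ?_)
    rintro _ ⟨y, hy, w, hw, rfl⟩
    rw [← h1] at hw
    obtain ⟨w', hw', rfl⟩ := hw
    have h3 := Link_part hF hy (img_le _ hw')
    have h4 : y * pS F d τ w' - pS F d τ w' * y = y * w' - w' * y := by
      rw [← neg_sub, ← h3, neg_sub]
    rw [h4]
    exact img_ideal hE hθ (soS_le τ hy) hw'
  refine ⟨τ, hτ6, le_antisymm ?_ h2⟩
  -- the inverse image
  let K : Submodule ℂ (Module.End ℂ U) :=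
    (((soS F d τ).comap (soC F d).subtype).map θ.symm.toLinearMap).map (soC E c).subtype
  have hK : ∀ y, y ∈ K ↔ ∃ x : soC E c, (θ x).1 ∈ soS F d τ ∧ x.1 = y := by
    intro y
    constructor
    · rintro ⟨_, ⟨x, hx, rfl⟩, rfl⟩
      refine ⟨θ.symm x, ?_, rfl⟩
      rw [θ.apply_symm_apply]
      exact hx
    · rintro ⟨x, hx, rfl⟩
      exact ⟨_, ⟨θ x, hx, θ.symm_apply_apply x⟩, rfl⟩
  have hKle : K ≤ soS E c σ := by
    intro y hy
    obtain ⟨x, hx, rfl⟩ := (hK y).1 hy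
    obtain ⟨x', hx', hxx⟩ := mem_img.1 (h2 hx)
    have h3 : x' = x := θ.injective (Subtype.ext hxx)
    rw [← h3]
    exact hx'
  have g3 : ∀ x ∈ soS E c σ, ∀ y ∈ K, x * y - y * x ∈ K := by
    intro x hx y hy
    obtain ⟨y', hy', rfl⟩ := (hK _).1 hy
    refine (hK _).2 ⟨⟨_, soC_br hE (soS_le σ hx) y'.2⟩, ?_, rfl⟩
    rw [hθ ⟨x, soS_le σ hx⟩ y' _ rfl]
    exact soS_ideal hF (θ ⟨x, soS_le σ hx⟩).2 hy'
  rcases soS_simple hE hσ K hKle g3 with h | h
  · exfalso
    obtain ⟨y, hy, hy0⟩ := (Submodule.ne_bot_iff _).1 (soS_ne hF hτ6)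
    obtain ⟨x', hx', hxx⟩ := mem_img.1 (h2 hy)
    have h3 : x'.1 ∈ K := (hK _).2 ⟨x', hxx ▸ hy, rfl⟩
    rw [h, Submodule.mem_bot] at h3
    have h4 : x' = 0 := Subtype.ext h3
    rw [h4, map_zero] at hxx
    exact hy0 hxx.symm
  · intro y hy
    obtain ⟨x', hx', rfl⟩ := mem_img.1 hy
    rw [← h] at hx'
    obtain ⟨x'', h3, h4⟩ := (hK _).1 hx'
    have h5 : x'' = x' := Subtype.ext h4
    rw [← h5]
    exact h3

/-- The restriction of the isomorphism to subspaces. -/
theorem exists_restr {S : Submodule ℂ (Module.End ℂ U)} {T : Submodule ℂ (Module.End ℂ W)}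
    (hS : S ≤ soC E c) (h : img θ S = T) :
    ∃ φ : S ≃ₗ[ℂ] T, ∀ x : S, (φ x).1 = (θ ⟨x.1, hS x.2⟩).1 := by
  have hm : ∀ x : S, (θ ⟨x.1, hS x.2⟩).1 ∈ T := fun x => by
    rw [← h]
    exact mem_img.2 ⟨_, x.2, rfl⟩
  let f : S →ₗ[ℂ] T := LinearMap.codRestrict T
    ((soC F d).subtype ∘ₗ θ.toLinearMap ∘ₗ Submodule.inclusion hS) hm
  have hf : ∀ x, (f x).1 = (θ ⟨x.1, hS x.2⟩).1 := fun x => rfl
  have hb : Function.Bijective f := by
    constructor
    · intro x y hxy
      have h1 := congrArg Subtype.val hxy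
      rw [hf, hf] at h1
      have h2 := θ.injective (Subtype.ext h1)
      exact Subtype.ext (Subtype.mk.inj h2)
    · rintro ⟨y, hy⟩
      rw [← h] at hy
      obtain ⟨x, hx, hxy⟩ := mem_img.1 hy
      exact ⟨⟨x.1, hx⟩, Subtype.ext hxy⟩
  exact ⟨LinearEquiv.ofBijective f hb, fun x => hf x⟩

include hE hF hθ in
/-- **Isomorphic sums of orthogonal Lie algebras** in Clifford algebras have a common constituent:
there is a nonzero intertwining operator. -/
theorem link (hc : ∀ i, 6 ≤ csize c (c i)) (h8 : ∀ i, csize c (c i) ≠ 8)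
    (hd : ∀ j, 6 ≤ csize d (d j)) :
    ∃ T : U →ₗ[ℂ] W, T ≠ 0 ∧ ∀ x : soC E c, T ∘ₗ x.1 = (θ x).1 ∘ₗ T := by
  classical
  have key : ∀ Q : Finset (Fin k), ∃ T : U →ₗ[ℂ] W, T ≠ 0 ∧
      Intw {p | ∃ σ ∈ Q, ∃ x : soC E c, x.1 ∈ soS E c σ ∧ p = (x.1, (θ x).1)} T := by
    intro Q
    induction Q using Finset.induction_on with
    | empty =>
      obtain ⟨u, hu⟩ := exists_ne (0 : U)
      obtain ⟨v, hv⟩ := exists_ne (0 : W)
      obtain ⟨g, hg⟩ : ∃ g : Module.Dual ℂ U, g u ≠ 0 := by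
        by_contra hcon
        push Not at hcon
        exact hu ((Module.forall_dual_apply_eq_zero_iff ℂ u).1 hcon)
      refine ⟨g.smulRight v, fun h => ?_, ?_⟩
      · have h1 := LinearMap.congr_fun h u
        rw [LinearMap.smulRight_apply, LinearMap.zero_apply] at h1
        rcases smul_eq_zero.1 h1 with h2 | h2
        · exact hg h2
        · exact hv h2
      · rintro p ⟨σ, hσ, -⟩
        exact absurd hσ (Finset.notMem_empty σ)
    | insert σ Q hσQ ih =>
      obtain ⟨T₀, hT₀, hC⟩ := ih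
      by_cases hσ : ∀ i, c i ≠ σ
      · -- an empty colour
        refine ⟨T₀, hT₀, ?_⟩
        rintro p ⟨σ', hσ', x, hx, rfl⟩
        rcases Finset.mem_insert.1 hσ' with h | h
        · subst h
          have h0 : soS E c σ' = ⊥ := by
            unfold soS
            rw [Submodule.span_eq_bot]
            rintro _ ⟨i, j, hij, hi, hj, rfl⟩
            exact absurd hi (hσ i)
          rw [h0, Submodule.mem_bot] at hx
          have hx' : x = 0 := Subtype.ext hx
          rw [hx', map_zero]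
          change T₀ ∘ₗ (0 : Module.End ℂ U) = (0 : Module.End ℂ W) ∘ₗ T₀
          rw [LinearMap.comp_zero, LinearMap.zero_comp]
        · exact hC _ ⟨σ', h, x, hx, rfl⟩
      push Not at hσ
      obtain ⟨i0, hi0⟩ := hσ
      have hσ6 : 6 ≤ csize c σ := by rw [← hi0]; exact hc i0
      have hσ8 : csize c σ ≠ 8 := by rw [← hi0]; exact h8 i0
      obtain ⟨τ, hτ6, hτ⟩ := exists_match hE hF hθ hd hσ6
      obtain ⟨E', hE', hsE, hvE⟩ := sub_col hE c σ
      obtain ⟨F', hF', hsF, hvF⟩ := sub_col hF d τ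
      have hSle : soE E' ≤ soC E c := by
        rw [hsE]
        exact soS_le σ
      obtain ⟨φ, hφ⟩ := exists_restr (θ := θ) (S := soE E') (T := soE F') hSle (by
        rw [hsE, hsF, hτ])
      have hφl : LieIso φ := by
        intro x y z hz
        rw [hφ, hφ, hφ]
        exact hθ _ _ _ hz
      have g1 : ∀ p ∈ {p : Module.End ℂ U × Module.End ℂ W | ∃ σ ∈ Q, ∃ x : soC E c,
          x.1 ∈ soS E c σ ∧ p = (x.1, (θ x).1)}, ∀ a, p.1 * E' a = E' a * p.1 := by
        rintro p ⟨σ', hσ', x, hx, rfl⟩ a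
        obtain ⟨i, hi, hi'⟩ := hvE a
        rw [hi']
        refine Link_gen hE hx i ?_
        rw [hi]
        rintro rfl
        exact hσQ hσ'
      have g2 : ∀ p ∈ {p : Module.End ℂ U × Module.End ℂ W | ∃ σ ∈ Q, ∃ x : soC E c,
          x.1 ∈ soS E c σ ∧ p = (x.1, (θ x).1)}, ∀ x, p.2 * (φ x).1 = (φ x).1 * p.2 := by
        rintro p ⟨σ', hσ', x, hx, rfl⟩ y
        rw [hφ]
        have hy : y.1 ∈ soS E c σ := by
          rw [← hsE]
          exact y.2
        have hne : σ' ≠ σ := by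
          rintro rfl
          exact hσQ hσ'
        have h4 : (0 : soC E c).1 = x.1 * y.1 - y.1 * x.1 := by
          rw [soS_comm hE hne hx hy, sub_self]
          rfl
        have h5 := hθ x ⟨y.1, hSle y.2⟩ 0 h4
        rw [map_zero] at h5
        exact sub_eq_zero.1 h5.symm
      obtain ⟨T, h1, h2, h3⟩ := one_col hE' hF' hφl (by omega) (by omega) hσ8 hT₀ hC g1 g2
      refine ⟨T, h1, ?_⟩
      rintro p ⟨σ', hσ', x, hx, rfl⟩
      rcases Finset.mem_insert.1 hσ' with h | h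
      · subst h
        rw [← hsE] at hx
        have h4 := h3 ⟨x.1, hx⟩
        rw [hφ] at h4
        exact h4
      · exact h2 _ ⟨σ', h, x, hx, rfl⟩
  obtain ⟨T, hT, hI⟩ := key Finset.univ
  refine ⟨T, hT, ?_⟩
  let S : Submodule ℂ (soC E c) :=
    { carrier := {x | T ∘ₗ x.1 = (θ x).1 ∘ₗ T}
      zero_mem' := by
        change T ∘ₗ (0 : Module.End ℂ U) = (θ 0).1 ∘ₗ T
        rw [map_zero, LinearMap.comp_zero]
        rfl
      add_mem' := by
        intro x y hx hy
        change T ∘ₗ (x.1 + y.1) = (θ (x + y)).1 ∘ₗ T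
        rw [map_add, Submodule.coe_add, LinearMap.comp_add, LinearMap.add_comp, hx, hy]
      smul_mem' := by
        intro c x hx
        change T ∘ₗ (c • x.1) = (θ (c • x)).1 ∘ₗ T
        rw [map_smul, Submodule.coe_smul, LinearMap.comp_smul, LinearMap.smul_comp, hx] }
  have hall : soC E c ≤ S.map (soC E c).subtype := by
    refine Submodule.span_le.2 ?_
    rintro _ ⟨a, b, hab, hcab, rfl⟩
    have hm : E a * E b ∈ soC E c := Submodule.subset_span ⟨a, b, hab, hcab, rfl⟩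
    have hm' : E a * E b ∈ soS E c (c a) :=
      Submodule.subset_span ⟨a, b, hab, rfl, hcab.symm, rfl⟩
    exact ⟨⟨E a * E b, hm⟩, hI _ ⟨c a, Finset.mem_univ _, ⟨E a * E b, hm⟩, hm', rfl⟩, rfl⟩
  intro x
  obtain ⟨y, hy, hyx⟩ := hall x.2
  have h5 : y = x := Subtype.ext hyx
  rw [← h5]
  exact hy

end match_

end Pool.Agent.N208.KP
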