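import Pool.Agent.N208.KP.Blk

set_option autoImplicit false
set_option linter.unusedSectionVars false

/-!
# Two factors are independent
-/

open Module Matrix TensorProduct

noncomputable section

namespace Pool.Agent.N208.KP

open Pool.Agent.Y102 Pool.Agent.Y102.SP Pool.Agent.W516.DR

/-- Two surjective maps with the same kernel. -/
theorem exists_equiv {V W W' : Type} [AddCommGroup V] [Module ℂ V] [AddCommGroup W] [Module ℂ W]
    [AddCommGroup W'] [Module ℂ W'] (f : V →ₗ[ℂ] W) (f' : V →ₗ[ℂ] W')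
    (hf : Function.Surjective f) (hf' : Function.Surjective f')
    (hk : ∀ x, f x = 0 ↔ f' x = 0) : ∃ θ : W ≃ₗ[ℂ] W', ∀ x, θ (f x) = f' x := by
  have hk : LinearMap.ker f = LinearMap.ker f' := by
    ext x
    exact hk x
  refine ⟨(f.quotKerEquivOfSurjective hf).symm ≪≫ₗ (Submodule.quotEquivOfEq _ _ hk) ≪≫ₗ
      (f'.quotKerEquivOfSurjective hf'), fun x => ?_⟩
  have e1 : (f.quotKerEquivOfSurjective hf).symm (f x) = Submodule.Quotient.mk x := by
    rw [LinearEquiv.symm_apply_eq]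
    rfl
  change f'.quotKerEquivOfSurjective hf' (Submodule.quotEquivOfEq _ _ hk
    ((f.quotKerEquivOfSurjective hf).symm (f x))) = f' x
  rw [e1, Submodule.quotEquivOfEq_mk]
  rfl

theorem exists_equiv_sub {U V W : Type} [AddCommGroup U] [Module ℂ U] [AddCommGroup V]
    [Module ℂ V] [AddCommGroup W] [Module ℂ W] {S : Submodule ℂ (Module.End ℂ U)}
    {T : Submodule ℂ (Module.End ℂ V)} {T' : Submodule ℂ (Module.End ℂ W)}
    (f : Module.End ℂ U →ₗ[ℂ] Module.End ℂ V) (f' : Module.End ℂ U →ₗ[ℂ] Module.End ℂ W)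
    (hf : S.map f = T) (hf' : S.map f' = T')
    (hk : ∀ x ∈ S, f x = 0 ↔ f' x = 0) : ∃ θ : T ≃ₗ[ℂ] T', ∀ x ∈ S, ∀ y : T, y.1 = f x →
      (θ y).1 = f' x := by
  have h1 : ∀ x : S, f x.1 ∈ T := fun x => by
    rw [← hf]
    exact Submodule.mem_map_of_mem x.2
  have h2 : ∀ x : S, f' x.1 ∈ T' := fun x => by
    rw [← hf']
    exact Submodule.mem_map_of_mem x.2
  obtain ⟨θ, hθ⟩ := exists_equiv (LinearMap.codRestrict T (f ∘ₗ S.subtype) h1)
    (LinearMap.codRestrict T' (f' ∘ₗ S.subtype) h2) (by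
      rintro ⟨y, hy⟩
      rw [← hf] at hy
      obtain ⟨x, hx, rfl⟩ := hy
      exact ⟨⟨x, hx⟩, rfl⟩) (by
      rintro ⟨y, hy⟩
      rw [← hf'] at hy
      obtain ⟨x, hx, rfl⟩ := hy
      exact ⟨⟨x, hx⟩, rfl⟩) (fun x => by
      rw [Subtype.ext_iff, Subtype.ext_iff]
      exact hk x.1 x.2)
  refine ⟨θ, fun x hx y hy => ?_⟩
  have h3 : y = LinearMap.codRestrict T (f ∘ₗ S.subtype) h1 ⟨x, hx⟩ := Subtype.ext hy
  rw [h3, hθ]
  rfl

variable {g : ℕ} {A : AbVar g} {m : ℕ} {P : Fin m → Module.End ℚ A.H1} {r : Fin m → ℕ}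
  {𝔮 : Submodule ℚ (Module.End ℚ A.H1)}

/-- The endomorphisms of the complexification which commute with the Lie algebra have no components
between different factors. -/
theorem Blocks.homC (hb : Blocks A P r) (hq : A.Full 𝔮) {i j : Fin m} (hij : i ≠ j)
    {T : Module.End ℂ (ℂ ⊗[ℚ] A.H1)} (hT : ∀ X ∈ cx 𝔮, T * X = X * T) :
    (P i).baseChange ℂ * T * (P j).baseChange ℂ = 0 := by
  refine eq_zero_of_cmpE fun lam => ?_
  rw [cmpE_mul_bc, cmpE_bc_mul]
  refine hb.hom i j hij _ fun X hX => ?_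
  have h1 := hq.cx_com T hT
  exact (((comm_iff X T).2 (h1 _ (bc_mem hX))) lam).symm

theorem Blocks.no_link (hb : Blocks A P r) (hq : A.Full 𝔮) {i j : Fin m} (hij : i ≠ j)
    (h8 : r i ≠ 8) (h1 : ∀ X ∈ 𝔮, P j * X = 0 → P i * X = 0)
    (h2 : ∀ X ∈ 𝔮, P i * X = 0 → P j * X = 0) : False := by
  obtain ⟨N, k, E, c, hN, hs⟩ := hb.spin i
  obtain ⟨M, l, F, d, hM, ht⟩ := hb.spin j
  have hpi := hb.bc_idem i
  have hpj := hb.bc_idem j
  have := hb.nontriv i
  have := hb.nontriv j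
  have hE := hs.ce hpi
  have hF := ht.ce hpj
  have hmi := hs.map hpi
  have hmj := ht.map hpj
  have hQi := hb.surjC hq i
  have hQj := hb.surjC hq j
  have hC1 := cx_ker h1
  have hC2 := cx_ker h2
  have hH := fun T hT => hb.homC hq (T := T) (Ne.symm hij) hT
  have hci : ∀ X ∈ cx 𝔮, X * (P i).baseChange ℂ = (P i).baseChange ℂ * X := fun X hX =>
    hb.cx_com i (cx_mono hq.le hX)
  have hcj : ∀ X ∈ cx 𝔮, X * (P j).baseChange ℂ = (P j).baseChange ℂ * X := fun X hX =>
    hb.cx_com j (cx_mono hq.le hX)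
  set p : Module.End ℂ (ℂ ⊗[ℚ] A.H1) := (P i).baseChange ℂ with hp
  set q : Module.End ℂ (ℂ ⊗[ℚ] A.H1) := (P j).baseChange ℂ with hq'
  -- the two projections
  obtain ⟨θ, hθ⟩ := exists_equiv_sub (res p) (res q) (hQi.trans hmi) (hQj.trans hmj)
    (fun x hx => by
      rw [res_zero_iff hpi (hci x hx), res_zero_iff hpj (hcj x hx)]
      exact ⟨fun h => hC2 _ hx h, fun h => hC1 _ hx h⟩)
  have hmem : ∀ x ∈ cx 𝔮, res p x ∈ soC (fun a => res p (E a)) c := fun x hx => by
    rw [← hmi, ← hQi]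
    exact Submodule.mem_map_of_mem hx
  have hsurj : ∀ y : soC (fun a => res p (E a)) c, ∃ x ∈ cx 𝔮, y.1 = res p x := by
    rintro ⟨y, hy⟩
    rw [← hmi, ← hQi] at hy
    obtain ⟨x, hx, rfl⟩ := hy
    exact ⟨x, hx, rfl⟩
  have hθl : LieIso θ := by
    intro x y z hz
    obtain ⟨x', hx', hx⟩ := hsurj x
    obtain ⟨y', hy', hy⟩ := hsurj y
    have e1 : z.1 = res p (x' * y' - y' * x') := by
      rw [hz, hx, hy, map_sub, res_mul hpi (hci _ hx'), res_mul hpi (hci _ hy')]
    rw [hθ _ (hq.cx_br' x' hx' y' hy') z e1, hθ x' hx' x hx, hθ y' hy' y hy, map_sub,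
      res_mul hpj (hcj _ hx'), res_mul hpj (hcj _ hy')]
  obtain ⟨T, hT0, hT⟩ := link hE hF hθl (fun a => by rw [hs.size]; exact hb.size i)
    (fun a => by rw [hs.size]; exact h8) (fun a => by rw [ht.size]; exact hb.size j)
  let T' : Module.End ℂ (ℂ ⊗[ℚ] A.H1) := (LinearMap.range q).subtype ∘ₗ T ∘ₗ p.rangeRestrict
  have hTu : ∀ u, T' u = (T ⟨p u, u, rfl⟩).1 := fun u => rfl
  have hT' : ∀ X ∈ cx 𝔮, T' * X = X * T' := by
    intro X hX
    refine LinearMap.ext fun u => ?_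
    rw [Module.End.mul_apply, Module.End.mul_apply, hTu, hTu]
    have e1 := congrArg Subtype.val (LinearMap.congr_fun (hT ⟨res p X, hmem X hX⟩) ⟨p u, u, rfl⟩)
    rw [LinearMap.comp_apply, LinearMap.comp_apply, hθ X hX _ rfl, res_val] at e1
    have e2 : (⟨p (X u), X u, rfl⟩ : LinearMap.range p) = res p X ⟨p u, u, rfl⟩ := by
      apply Subtype.ext
      rw [res_val]
      have h3 : X (p u) = p (X u) := LinearMap.congr_fun (hci X hX) u
      have h4 : p (p (X u)) = p (X u) := LinearMap.congr_fun hpi (X u)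
      change p (X u) = p (X (p u))
      rw [h3, h4]
    rw [e2, e1]
    have h5 := LinearMap.congr_fun (hcj X hX) (T ⟨p u, u, rfl⟩).1
    rw [Module.End.mul_apply, Module.End.mul_apply, p_val hpj] at h5
    exact h5.symm
  have h6 := hH T' hT'
  apply hT0
  refine LinearMap.ext fun u => Subtype.ext ?_
  rw [LinearMap.zero_apply]
  have h7 := LinearMap.congr_fun h6 u.1
  rw [Module.End.mul_apply, Module.End.mul_apply, p_val hpi, hTu, p_val hpj,
    LinearMap.zero_apply] at h7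
  have h8' : (⟨p u.1, u.1, rfl⟩ : LinearMap.range p) = u := Subtype.ext (p_val hpi u)
  rw [h8'] at h7
  exact h7

/-- The kernel of the projection to a factor projects onto every other factor. -/
theorem Blocks.kr_pair (hb : Blocks A P r) (hq : A.Full 𝔮) {i j : Fin m} (hij : i ≠ j) :
    kr P 𝔮 i {j} = blk A P i := by
  rcases hb.kr_ideal hq i {j} with h | h
  swap
  · exact h
  exfalso
  have h1 : ∀ X ∈ 𝔮, P j * X = 0 → P i * X = 0 := by
    intro X hX hj
    have h2 : P i * X ∈ kr P 𝔮 i {j} := mem_kr.2 ⟨X, hX, fun j' hj' => by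
      rw [Finset.mem_singleton.1 hj']
      exact hj, rfl⟩
    rwa [h, Submodule.mem_bot] at h2
  have h2 : ∀ X ∈ 𝔮, P i * X = 0 → P j * X = 0 := by
    rcases hb.kr_ideal hq j {i} with h' | h'
    · intro X hX hj
      have h2 : P j * X ∈ kr P 𝔮 j {i} := mem_kr.2 ⟨X, hX, fun j' hj' => by
        rw [Finset.mem_singleton.1 hj']
        exact hj, rfl⟩
      rwa [h', Submodule.mem_bot] at h2
    · exfalso
      apply hb.blk_ne i
      rw [eq_bot_iff]
      rintro _ ⟨X, hX, rfl⟩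
      rw [Submodule.mem_bot]
      obtain ⟨Y, hY, hYX⟩ := hb.surj hq i hX
      change P i * X = 0
      rw [← hYX]
      have h3 : P j * Y ∈ kr P 𝔮 j {i} := by
        rw [h']
        exact ⟨Y, hq.le hY, rfl⟩
      obtain ⟨Z, hZ, h4, h5⟩ := mem_kr.1 h3
      have h6 : P j * (Y - Z) = 0 := by rw [mul_sub, h5, sub_self]
      have h7 := h1 (Y - Z) (Submodule.sub_mem _ hY hZ) h6
      rw [mul_sub, h4 i (Finset.mem_singleton_self i), sub_zero] at h7
      exact h7
  by_cases h8 : r i = 8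
  · have h9 : r j ≠ 8 := fun h => hij (hb.eight i j h8 h)
    exact hb.no_link hq (Ne.symm hij) h9 h2 h1
  · exact hb.no_link hq hij h8 h1 h2

/-- The Lie algebra of a factor is not abelian. -/
theorem Blocks.nonab (hb : Blocks A P r) (i : Fin m) :
    ∃ X ∈ blk A P i, ∃ Y ∈ blk A P i, X * Y - Y * X ≠ 0 := by
  by_contra hcon
  push Not at hcon
  obtain ⟨N, k, E, c, hN, hs⟩ := hb.spin i
  have hpp := hb.bc_idem i
  have := hb.nontriv i
  have h6 : 6 ≤ csize c (c ⟨0, hN⟩) := by rw [hs.size]; exact hb.size i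
  have hE := hs.ce hpp
  apply soS_ne hE h6
  rw [eq_bot_iff]
  refine (ColMain_perfect hE h6).trans ?_
  rw [Submodule.span_le]
  rintro _ ⟨x, hx, y, hy, rfl⟩
  have hx' := soS_le _ hx
  have hy' := soS_le _ hy
  rw [← hs.map hpp] at hx' hy'
  obtain ⟨X, hX, rfl⟩ := hx'
  obtain ⟨Y, hY, rfl⟩ := hy'
  have h1 : ∀ X ∈ A.NA, ∀ Y ∈ A.NA, P i * (X * Y - Y * X) = 0 := by
    intro X hX Y hY
    rw [hb.br i hX hY]
    exact hcon _ ⟨X, hX, rfl⟩ _ ⟨Y, hY, rfl⟩
  have h2 : ∀ X ∈ cx A.NA, ∀ Y ∈ A.NA, (P i).baseChange ℂ * (X * Y.baseChange ℂ -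
      Y.baseChange ℂ * X) = 0 := by
    intro X hX Y hY
    unfold cx extEnd at hX
    induction hX using Submodule.span_induction with
    | mem X hX =>
      obtain ⟨X, hX, rfl⟩ := hX
      rw [← bc_br, ← bc_mul, h1 X hX Y hY, LinearMap.baseChange_zero]
    | zero => rw [zero_mul, mul_zero, sub_zero, mul_zero]
    | add a b _ _ ha hb =>
      rw [add_mul, mul_add, add_sub_add_comm, mul_add, ha, hb, add_zero]
    | smul t a _ ha =>
      rw [smul_mul_assoc, mul_smul_comm, ← smul_sub, mul_smul_comm, ha, smul_zero]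
  have h3 : ∀ X ∈ cx A.NA, ∀ Y ∈ cx A.NA, (P i).baseChange ℂ * (X * Y - Y * X) = 0 := by
    intro X hX Y hY
    unfold cx extEnd at hY
    induction hY using Submodule.span_induction with
    | mem Y hY =>
      obtain ⟨Y, hY, rfl⟩ := hY
      exact h2 X hX Y hY
    | zero => rw [zero_mul, mul_zero, sub_zero, mul_zero]
    | add a b _ _ ha hb =>
      rw [add_mul, mul_add, add_sub_add_comm, mul_add, ha, hb, add_zero]
    | smul t a _ ha =>
      rw [smul_mul_assoc, mul_smul_comm, ← smul_sub, mul_smul_comm, ha, smul_zero]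
  rw [SetLike.mem_coe, Submodule.mem_bot, ← res_mul hpp (hb.cx_com i hX),
    ← res_mul hpp (hb.cx_com i hY)]
  have h4 : res ((P i).baseChange ℂ) (X * Y - Y * X) = 0 := by
    rw [← res_p_mul hpp, h3 X hX Y hY, map_zero]
  rwa [map_sub] at h4

/-- **Every factor is contained in a full subalgebra.** -/
theorem Blocks.kr_full (hb : Blocks A P r) (hq : A.Full 𝔮) (i : Fin m) (Q : Finset (Fin m))
    (hQ : i ∉ Q) : kr P 𝔮 i Q = blk A P i := by
  classical
  induction Q using Finset.induction_on with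
  | empty =>
    refine le_antisymm ?_ ?_
    · intro Z hZ
      obtain ⟨X, hX, -, rfl⟩ := mem_kr.1 hZ
      exact ⟨X, hq.le hX, rfl⟩
    · rintro _ ⟨X, hX, rfl⟩
      obtain ⟨Y, hY, hYX⟩ := hb.surj hq i hX
      exact mem_kr.2 ⟨Y, hY, fun j hj => absurd hj (Finset.notMem_empty j), hYX⟩
  | insert j Q hjQ ih =>
    have hiQ : i ∉ Q := fun h => hQ (Finset.mem_insert_of_mem h)
    have hij : i ≠ j := by
      rintro rfl
      exact hQ (Finset.mem_insert_self _ _)
    have h1 := ih hiQ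
    have h2 := hb.kr_pair hq hij
    rcases hb.kr_ideal hq i (insert j Q) with h | h
    swap
    · exact h
    exfalso
    obtain ⟨X, hX, Y, hY, hXY⟩ := hb.nonab i
    rw [← h1] at hX
    rw [← h2] at hY
    obtain ⟨X', hX', h3, rfl⟩ := mem_kr.1 hX
    obtain ⟨Y', hY', h4, rfl⟩ := mem_kr.1 hY
    apply hXY
    have h5 : P i * (X' * Y' - Y' * X') ∈ kr P 𝔮 i (insert j Q) := by
      refine mem_kr.2 ⟨_, hq.br X' hX' Y' hY', fun j' hj' => ?_, rfl⟩
      rw [hb.br j' (hq.le hX') (hq.le hY')]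
      rcases Finset.mem_insert.1 hj' with rfl | h6
      · rw [h4 j' (Finset.mem_singleton_self _), mul_zero, zero_mul, sub_zero]
      · rw [h3 j' h6, mul_zero, zero_mul, sub_zero]
    rw [h, Submodule.mem_bot, hb.br i (hq.le hX') (hq.le hY')] at h5
    exact h5

/-- **Main theorem on full subalgebras.** -/
theorem Blocks.full (hb : Blocks A P r) (hq : A.Full 𝔮) : A.NA ≤ 𝔮 := by
  classical
  intro X hX
  have h1 : ∀ i, P i * X ∈ 𝔮 := by
    intro i
    have h2 : P i * X ∈ kr P 𝔮 i (Finset.univ.erase i) := by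
      rw [hb.kr_full hq i _ (Finset.notMem_erase i _)]
      exact ⟨X, hX, rfl⟩
    obtain ⟨Y, hY, h3, h4⟩ := mem_kr.1 h2
    have h5 : Y = P i * Y := by
      conv_lhs => rw [← one_mul Y, ← hb.sum, Finset.sum_mul]
      refine Finset.sum_eq_single_of_mem i (Finset.mem_univ i) fun j _ hj => ?_
      exact h3 j (Finset.mem_erase.2 ⟨hj, Finset.mem_univ j⟩)
    rw [← h4, ← h5]
    exact hY
  have h2 : X = ∑ i, P i * X := by
    rw [← Finset.sum_mul, hb.sum, one_mul]
  rw [h2]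
  exact Submodule.sum_mem _ fun i _ => h1 i

end Pool.Agent.N208.KP
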