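import Pool.Agent.N208.KP.Lnk
import Pool.Agent.N208.AM.MainB

set_option autoImplicit false
set_option linter.unusedSectionVars false

/-!
# De Rham-Betti classes and torsors for products of abelian varieties of spin type
-/

open Module Matrix TensorProduct

noncomputable section

namespace Pool.Agent.N208.KP

open Pool.Agent.Y102 Pool.Agent.Y102.SP Pool.Agent.W516.DR Pool.Agent.H204R3.GP
  Pool.Agent.W516.KC Pool.Agent.H204R3.SP Pool.Agent.TH119.MX Pool.Agent.R917 Pool.Agent.N208.AM

/-! ### Perfect Lie algebras without full subalgebras -/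

section perf

variable {g : ℕ} {A : AbVar g} {s n : ℕ} {r : Fin s → ℕ} {B : Fin n → Ten A r} {w : Fin s → ℤ}
  {P : Matrix (Fin n) (Fin n) ℂ} {H : Set (Matrix (Fin n) (Fin n) ℂ)}
  {Wt : Matrix (Fin n) (Fin n) ℚ} {N : Matrix (Fin n) (Fin n) ℝ}

/-- The centre acts trivially if the Lie algebra is perfect. -/
theorem noCentre_of_perf (h : Mot w B P) (hA : A.NA ≤ der A.NA) : NoCentre B := by
  intro X hX hcomm
  obtain ⟨N, hN, t, X', M', h1, h2⟩ := exists_J h
  have h4 : N ∈ spR B (A.NA : Set (Module.End ℚ A.H1)) := by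
    rw [h2]
    exact Submodule.sum_mem _ fun k _ => Submodule.smul_mem _ _ (mem_spR (h1 k).1 (h1 k).2)
  obtain ⟨Nc, hNc, Nd, hNd, hNe⟩ := exists_dec h h4
  obtain ⟨M, hM⟩ := h.st X hX
  have h5 := (dat h hN hNc hNd hNe).cen (rq M) (mem_spR (hA hX) hM) fun x hx => by
    induction hx using Submodule.span_induction with
    | mem x hx =>
      obtain ⟨Y, hY, M2, hM2, rfl⟩ := hx
      have h6 := (hM.br hM2).uniq h.li (hcomm Y (der_NA_le hY))
      rw [RLie.br_anti, RLie.br_apply, ← rq_mul, ← rq_mul, ← rq_sub, h6, rq_zero, neg_zero]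
    | zero => rw [map_zero]
    | add a b _ _ ha hb => rw [map_add, ha, hb, add_zero]
    | smul c a _ ha => rw [map_smul, ha, smul_zero]
  have h6 : M = 0 := by
    ext i j
    have h7 := congrFun (congrFun h5 i) j
    change ((M i j : ℚ) : ℝ) = 0 at h7
    exact_mod_cast h7
  rw [h6] at hM
  exact hM

/-- If the Lie algebra is perfect and has no full subalgebras, then the group contains the
Mumford-Tate group. -/
theorem main_perf (hp : A.NA ≤ der A.NA) (hf : ∀ 𝔮, A.Full 𝔮 → A.NA ≤ 𝔮) (h : Mot w B P)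
    (hW : WRel w B Wt) (hH : PtM P H) {z : ℂ} (hz : z ≠ 0) :
    ∃ R ∈ H, HRel w B z R := by
  obtain ⟨N, hN, t, X', M', h1, h2⟩ := exists_J h
  have hq := qM_full h hW hH
  have h3 : A.NA ≤ dq B Wt H := by
    have h4 : qM B Wt H = A.NA := le_antisymm hq.le (hf _ hq)
    change A.NA ≤ der (qM B Wt H)
    rw [h4]
    exact hp
  have h5 : N ∈ spR B (dq B Wt H : Set (Module.End ℚ A.H1)) := by
    rw [h2]
    exact Submodule.sum_mem _ fun k _ => Submodule.smul_mem _ _ (mem_spR (h3 (h1 k).1) (h1 k).2)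
  have hc := noCentre_of_perf h hp
  refine ⟨NormedSpace.exp (KK Wt N z), exp_mem hH.grp fun d => ?_, hrel_exp hW hN hz⟩
  unfold KK
  exact ((Wt_mem h hW hH hc d).smul _).add ((stab_spR h hW h5 d).smul _)

end perf

/-! ### Products -/

variable {g : ℕ} {A : AbVar g} {m : ℕ} {P : Fin m → Module.End ℚ A.H1} {r : Fin m → ℕ}

theorem Blocks.blk_le (hb : Blocks A P r) (i : Fin m) : blk A P i ≤ A.NA := by
  classical
  have hq := full_NA (A := A)
  rintro _ ⟨X, hX, rfl⟩
  have h2 : P i * X ∈ kr P A.NA i (Finset.univ.erase i) := by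
    rw [hb.kr_full hq i _ (Finset.notMem_erase i _)]
    exact ⟨X, hX, rfl⟩
  obtain ⟨Y, hY, h3, h4⟩ := mem_kr.1 h2
  have h5 : Y = P i * Y := by
    conv_lhs => rw [← one_mul Y, ← hb.sum, Finset.sum_mul]
    refine Finset.sum_eq_single_of_mem i (Finset.mem_univ i) fun j _ hj => ?_
    exact h3 j (Finset.mem_erase.2 ⟨hj, Finset.mem_univ j⟩)
  change P i * X ∈ A.NA
  rw [← h4, ← h5]
  exact hY

/-- The Lie algebra is perfect. -/
theorem Blocks.perf (hb : Blocks A P r) : A.NA ≤ der A.NA := by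
  have key : ∀ i, blk A P i ≤ der A.NA := by
    intro i
    let J : Submodule ℚ (Module.End ℚ A.H1) :=
      Submodule.span ℚ {Z | ∃ X ∈ blk A P i, ∃ Y ∈ blk A P i, Z = X * Y - Y * X}
    have hclosed : ∀ X ∈ A.NA, ∀ Y ∈ blk A P i, X * Y - Y * X ∈ blk A P i := by
      rintro X hX _ ⟨Y, hY, rfl⟩
      refine ⟨X * Y - Y * X, A.NA_bracket hX hY, ?_⟩
      exact (hb.br' i hX hY).symm
    have h1 : J ≤ blk A P i := by
      refine Submodule.span_le.2 ?_
      rintro _ ⟨X, hX, Y, hY, rfl⟩
      exact hclosed X (hb.blk_le i hX) Y hY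
    have h2 : ∀ X ∈ A.NA, ∀ Y ∈ J, X * Y - Y * X ∈ J := by
      intro X hX Y hY
      induction hY using Submodule.span_induction with
      | mem Y hY =>
        obtain ⟨U, hU, V, hV, rfl⟩ := hY
        have e : X * (U * V - V * U) - (U * V - V * U) * X =
            ((X * U - U * X) * V - V * (X * U - U * X)) +
              (U * (X * V - V * X) - (X * V - V * X) * U) := by
          simp only [mul_sub, sub_mul, mul_assoc]
          abel
        rw [e]
        exact Submodule.add_mem _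
          (Submodule.subset_span ⟨_, hclosed X hX U hU, _, hV, rfl⟩)
          (Submodule.subset_span ⟨_, hU, _, hclosed X hX V hV, rfl⟩)
      | zero => rw [mul_zero, zero_mul, sub_zero]; exact Submodule.zero_mem _
      | add a b _ _ ha hb =>
        rw [mul_add, add_mul, add_sub_add_comm]
        exact Submodule.add_mem _ ha hb
      | smul c a _ ha =>
        rw [mul_smul_comm, smul_mul_assoc, ← smul_sub]
        exact Submodule.smul_mem _ _ ha
    rcases hb.simple i J h1 h2 with h | h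
    · exfalso
      obtain ⟨X, hX, Y, hY, hXY⟩ := hb.nonab i
      apply hXY
      have h3 : X * Y - Y * X ∈ J := Submodule.subset_span ⟨X, hX, Y, hY, rfl⟩
      rwa [h, Submodule.mem_bot] at h3
    · rw [← h]
      refine Submodule.span_mono ?_
      rintro _ ⟨X, hX, Y, hY, rfl⟩
      exact ⟨X, hb.blk_le i hX, Y, hb.blk_le i hY, rfl⟩
  intro X hX
  have h2 : X = ∑ i, P i * X := by
    rw [← Finset.sum_mul, hb.sum, one_mul]
  rw [h2]
  exact Submodule.sum_mem _ fun i _ => key i ⟨X, hX, rfl⟩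

/-- **All de Rham-Betti classes are Hodge classes.** -/
theorem Blocks.hodge (hb : Blocks A P r) {k : ℕ}
    {ξ : MultilinearMap ℚ (fun _ : Fin k × Fin 2 => A.H1) ℚ}
    (hξ : IsDeRhamBettiForm QBar A.dR tau k ξ) :
    IsHodgeTensor (A.per : A.H1 →+ (Fin g → ℂ)) ξ :=
  hodge_of_kills _ A.isRationalStructure ξ fun _ hZ =>
    (hb.full A.full_LA) (A.MA_le_NA hZ) k ξ hξ

end Pool.Agent.N208.KP
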