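import Pool.Agent.N208.KP.Theta
import Pool.Agent.N208.KP.Inter
import Pool.Agent.Y102.SP.ColMain

set_option autoImplicit false
set_option linter.unusedSectionVars false

/-!
# Intertwining operators for isomorphic orthogonal Lie algebras: one colour
-/

open Module Matrix

noncomputable section

namespace Pool.Agent.N208.KP

open Pool.Agent.Y102.SP

variable {U W : Type} [AddCommGroup U] [Module ℂ U] [AddCommGroup W] [Module ℂ W]
  [FiniteDimensional ℂ U] [Nontrivial U] [FiniteDimensional ℂ W] [Nontrivial W] {n m : ℕ}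
  {E : Fin n → Module.End ℂ U} {F : Fin m → Module.End ℂ W}

theorem vc_single (a : Fin n) (t : ℂ) : vc E (Pi.single a t) = t • E a := by
  unfold vc
  rw [Finset.sum_eq_single a]
  · rw [Pi.single_eq_same]
  · intro b _ hb
    rw [Pi.single_eq_of_ne hb, zero_smul]
  · intro h
    exact absurd (Finset.mem_univ _) h

theorem vc_add (u v : Fin n → ℂ) : vc E (u + v) = vc E u + vc E v := by
  unfold vc
  rw [← Finset.sum_add_distrib]
  exact Finset.sum_congr rfl fun a _ => by rw [Pi.add_apply, add_smul]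

section

variable (hE : CE E) (hF : CE F) {θ : soE E ≃ₗ[ℂ] soE F} (hθ : LieIso θ) (hn : 3 ≤ n)
  (hm : 3 ≤ m) (h8 : n ≠ 8)

/-- The element `E_0 E_a`. -/
def e0 (o a : Fin n) (h : o ≠ a) : soE E := ⟨E o * E a, Submodule.subset_span ⟨o, a, h, rfl⟩⟩

include hE hF hθ hn hm h8

theorem f_sq {o a : Fin n} (h : o ≠ a) :
    (θ (e0 o a h)).1 * (θ (e0 o a h)).1 = -1 := by
  have huu : (Pi.single a (1 : ℂ) : Fin n → ℂ) ⬝ᵥ Pi.single a 1 = 1 := by
    rw [dotProduct_single, Pi.single_eq_same, mul_one]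
  have hvv : (Pi.single o (1 : ℂ) : Fin n → ℂ) ⬝ᵥ Pi.single o 1 = 1 := by
    rw [dotProduct_single, Pi.single_eq_same, mul_one]
  have huv : (Pi.single a (1 : ℂ) : Fin n → ℂ) ⬝ᵥ Pi.single o 1 = 0 := by
    rw [dotProduct_single, Pi.single_eq_of_ne h, zero_mul]
  have h1 := th_rot hE hF hθ hn hm h8 huu hvv huv (x := (1 / 2 : ℂ) • e0 o a h) (by
    rw [qE_rt hE huv, vc_single, vc_single, one_smul, one_smul]
    rfl)
  rw [map_smul, Submodule.coe_smul, smul_mul_smul_comm] at h1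
  have h2 := congrArg (fun x => (4 : ℂ) • x) h1
  simp only [smul_smul] at h2
  norm_num at h2
  exact h2

theorem f_anti {o a b : Fin n} (ha : o ≠ a) (hb : o ≠ b) (hab : a ≠ b) :
    (θ (e0 o a ha)).1 * (θ (e0 o b hb)).1 = -((θ (e0 o b hb)).1 * (θ (e0 o a ha)).1) := by
  obtain ⟨s, hs⟩ : ∃ s : ℂ, s ^ 2 = 1 / 2 :=
    IsAlgClosed.exists_pow_nat_eq (1 / 2 : ℂ) (n := 2) (by norm_num)
  have hs' : s * s = 1 / 2 := by rw [← hs, sq]
  set u : Fin n → ℂ := Pi.single a s + Pi.single b s with hu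
  have huu : u ⬝ᵥ u = 1 := by
    rw [hu, dotProduct_add, dotProduct_single, dotProduct_single, Pi.add_apply, Pi.add_apply,
      Pi.single_eq_same, Pi.single_eq_same, Pi.single_eq_of_ne hab,
      Pi.single_eq_of_ne (Ne.symm hab)]
    linear_combination 2 * hs'
  have hvv : (Pi.single o (1 : ℂ) : Fin n → ℂ) ⬝ᵥ Pi.single o 1 = 1 := by
    rw [dotProduct_single, Pi.single_eq_same, mul_one]
  have huv : u ⬝ᵥ (Pi.single o (1 : ℂ) : Fin n → ℂ) = 0 := by
    rw [dotProduct_single, hu, Pi.add_apply, Pi.single_eq_of_ne ha, Pi.single_eq_of_ne hb,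
      add_zero, zero_mul]
  have h1 := th_rot hE hF hθ hn hm h8 huu hvv huv
    (x := (1 / 2 : ℂ) • (s • e0 o a ha + s • e0 o b hb)) (by
    rw [qE_rt hE huv, vc_single, hu, vc_add, vc_single, vc_single, one_smul, mul_add,
      mul_smul_comm, mul_smul_comm]
    rfl)
  have e1 := f_sq hE hF hθ hn hm h8 ha
  have e2 := f_sq hE hF hθ hn hm h8 hb
  set x := (θ (e0 o a ha)).1 with hx
  set y := (θ (e0 o b hb)).1 with hy
  rw [map_smul, map_add, map_smul, map_smul] at h1
  change (1 / 2 : ℂ) • (s • x + s • y) * (1 / 2 : ℂ) • (s • x + s • y) = _ at h1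
  rw [smul_mul_smul_comm, add_mul, mul_add, mul_add, smul_mul_smul_comm, smul_mul_smul_comm,
    smul_mul_smul_comm, smul_mul_smul_comm, e1, e2, hs'] at h1
  have h2 : (1 / 8 : ℂ) • (x * y + y * x) = 0 := by
    have h3 : (1 / 8 : ℂ) • (x * y + y * x) = (1 / 2 * (1 / 2) : ℂ) •
      ((1 / 2 : ℂ) • (-1 : Module.End ℂ W) + (1 / 2 : ℂ) • (x * y) +
        ((1 / 2 : ℂ) • (y * x) + (1 / 2 : ℂ) • (-1 : Module.End ℂ W))) +
        (1 / 4 : ℂ) • (1 : Module.End ℂ W) := by
      module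
    rw [h3, h1]
    module
  have h4 := (smul_eq_zero.1 h2).resolve_left (by norm_num)
  exact eq_neg_of_add_eq_zero_left h4

/-- **The intertwining operator** for one colour. -/
theorem one_col {C : Set (Module.End ℂ U × Module.End ℂ W)} {T₀ : U →ₗ[ℂ] W} (hT₀ : T₀ ≠ 0)
    (hC : Intw C T₀) (hCE : ∀ p ∈ C, ∀ a, p.1 * E a = E a * p.1)
    (hCF : ∀ p ∈ C, ∀ x, p.2 * (θ x).1 = (θ x).1 * p.2) :
    ∃ T : U →ₗ[ℂ] W, T ≠ 0 ∧ Intw C T ∧ ∀ x : soE E, T ∘ₗ x.1 = (θ x).1 ∘ₗ T := by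
  obtain ⟨n, rfl⟩ : ∃ n', n = n' + 1 := ⟨n - 1, by omega⟩
  have hne : ∀ (i : ℕ) (h : i < n), (0 : Fin (n + 1)) ≠ ⟨i + 1, by omega⟩ := by
    intro i h h1
    have h2 := congrArg Fin.val h1
    simp at h2
  let e : ℕ → Module.End ℂ U := fun i =>
    if h : i < n then E 0 * E ⟨i + 1, by omega⟩ else Complex.I • E 0
  let f : ℕ → Module.End ℂ W := fun i =>
    if h : i < n then (θ (e0 0 ⟨i + 1, by omega⟩ (hne i h))).1 else 0
  have he1 : ∀ i (h : i < n), e i = E 0 * E ⟨i + 1, by omega⟩ := fun i h => by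
    simp only [e, dif_pos h]
  have he2 : e n = Complex.I • E 0 := by
    simp only [e, lt_irrefl, dif_neg, not_false_eq_true]
  have hf1 : ∀ i (h : i < n), f i = (θ (e0 0 ⟨i + 1, by omega⟩ (hne i h))).1 := fun i h => by
    simp only [f, dif_pos h]
  have hs : ∀ i < n + 1, e i * e i = -1 := by
    intro i hi
    rcases Nat.lt_or_ge i n with h | h
    · rw [he1 i h]
      exact simple_sq hE (hne i h)
    · have h2 : i = n := by omega
      rw [h2, he2, smul_mul_smul_comm, Complex.I_mul_I, hE.sq, neg_one_smul]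
  have ha0 : ∀ i (h : i < n), e i * e n = -(e n * e i) := by
    intro i h
    rw [he1 i h, he2, mul_smul_comm, smul_mul_assoc, mul_assoc, hE.anti _ _ (Ne.symm (hne i h)),
      mul_neg, smul_neg]
  have ha : ∀ i < n + 1, ∀ j < n + 1, i ≠ j → e i * e j = -(e j * e i) := by
    intro i hi j hj hij
    rcases Nat.lt_or_ge i n with h | h
    · rcases Nat.lt_or_ge j n with h' | h'
      · rw [he1 i h, he1 j h']
        have h3 : (⟨i + 1, by omega⟩ : Fin (n + 1)) ≠ ⟨j + 1, by omega⟩ := by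
          intro h4
          apply hij
          have h5 := congrArg Fin.val h4
          simpa using h5
        have e3 : ∀ a b : Fin (n + 1), 0 ≠ a → E 0 * E a * (E 0 * E b) = -(E a * E b) := by
          intro a b h0a
          rw [hE.anti 0 a h0a, neg_mul, mul_assoc, ← mul_assoc (E 0), hE.sq, one_mul]
        rw [e3 _ _ (hne i h), e3 _ _ (hne j h'), hE.anti _ _ h3]
      · have h2 : j = n := by omega
        rw [h2]
        exact ha0 i h
    · have h2 : i = n := by omega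
      have h3 : j < n := by omega
      rw [h2, ha0 j h3, neg_neg]
  have hs' : ∀ i < n, f i * f i = -1 := by
    intro i h
    rw [hf1 i h]
    exact f_sq hE hF hθ hn hm h8 _
  have ha' : ∀ i < n, ∀ j < n, i ≠ j → f i * f j = -(f j * f i) := by
    intro i h j h' hij
    rw [hf1 i h, hf1 j h']
    refine f_anti hE hF hθ hn hm h8 _ _ fun h4 => hij ?_
    have h5 := congrArg Fin.val h4
    simpa using h5
  have hCe : ∀ p ∈ C, ∀ i < n + 1, p.1 * e i = e i * p.1 := by
    intro p hp i hi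
    rcases Nat.lt_or_ge i n with h | h
    · rw [he1 i h, ← mul_assoc, hCE p hp, mul_assoc, hCE p hp, mul_assoc]
    · have h2 : i = n := by omega
      rw [h2, he2, mul_smul_comm, hCE p hp, smul_mul_assoc]
  have hCf : ∀ p ∈ C, ∀ i < n, p.2 * f i = f i * p.2 := by
    intro p hp i h
    rw [hf1 i h]
    exact hCF p hp _
  obtain ⟨T, h1, h2, h3⟩ : ∃ T : U →ₗ[ℂ] W, T ≠ 0 ∧ Intw C T ∧
      ∀ i < n, T ∘ₗ e i = f i ∘ₗ T := by
    rcases Nat.even_or_odd n with hev | hod
    · exact exists_intw (M := n) hT₀ hC le_rfl hev (fun i hi => hs i (by omega))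
        (fun i hi j hj => ha i (by omega) j (by omega)) hs' ha'
        (fun p hp i hi => hCe p hp i (by omega)) hCf
    · exact exists_intw (M := n + 1) hT₀ hC (by omega) (Odd.add_one hod) hs ha hs' ha' hCe hCf
  refine ⟨T, h1, h2, ?_⟩
  -- the generators
  have h4 : ∀ (a : Fin (n + 1)) (h : 0 ≠ a), T ∘ₗ (e0 0 a h : soE E).1 =
      (θ (e0 0 a h)).1 ∘ₗ T := by
    intro a h
    obtain ⟨a, ha1⟩ := a
    obtain ⟨i, rfl⟩ : ∃ i : ℕ, a = i + 1 := by
      refine ⟨a - 1, ?_⟩
      have h5 : a ≠ 0 := fun h6 => h (Fin.ext h6.symm)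
      omega
    have hin : i < n := by omega
    have h7 := h3 i hin
    rw [he1 i hin, hf1 i hin] at h7
    exact h7
  let S : Submodule ℂ (soE E) :=
    { carrier := {x | T ∘ₗ x.1 = (θ x).1 ∘ₗ T}
      zero_mem' := by
        change T ∘ₗ (0 : Module.End ℂ U) = (θ 0).1 ∘ₗ T
        rw [map_zero, LinearMap.comp_zero]
        rfl
      add_mem' := by
        intro x y hx hy
        change T ∘ₗ (x.1 + y.1) = (θ (x + y)).1 ∘ₗ T
        rw [map_add, Submodule.coe_add, LinearMap.comp_add, LinearMap.add_comp, hx, hy]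
      smul_mem' := by
        intro c x hx
        change T ∘ₗ (c • x.1) = (θ (c • x)).1 ∘ₗ T
        rw [map_smul, Submodule.coe_smul, LinearMap.comp_smul, LinearMap.smul_comp, hx] }
  have hbr : ∀ x ∈ S, ∀ y ∈ S, ∀ z : soE E, z.1 = x.1 * y.1 - y.1 * x.1 → z ∈ S := by
    intro x hx y hy z hz
    change T ∘ₗ z.1 = (θ z).1 ∘ₗ T
    have hx' : ∀ u, T (x.1 u) = (θ x).1 (T u) := fun u =>
      LinearMap.congr_fun (show T ∘ₗ x.1 = (θ x).1 ∘ₗ T from hx) u
    have hy' : ∀ u, T (y.1 u) = (θ y).1 (T u) := fun u =>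
      LinearMap.congr_fun (show T ∘ₗ y.1 = (θ y).1 ∘ₗ T from hy) u
    rw [hθ x y z hz, hz]
    refine LinearMap.ext fun u => ?_
    change T (x.1 (y.1 u) - y.1 (x.1 u)) = (θ x).1 ((θ y).1 (T u)) - (θ y).1 ((θ x).1 (T u))
    rw [map_sub, hx', hy', hy', hx']
  have hgen : ∀ a b (h : a ≠ b), (e0 a b h : soE E) ∈ S := by
    intro a b h
    by_cases ha : 0 = a
    · subst ha
      exact h4 b h
    · by_cases hb : 0 = b
      · subst hb
        have h5 : (e0 a 0 h : soE E) = -e0 0 a (Ne.symm h) :=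
          Subtype.ext (hE.anti a 0 h)
        rw [h5]
        exact S.neg_mem (h4 a (Ne.symm h))
      · have h5 : ∀ a b : Fin (n + 1), 0 ≠ a → E 0 * E a * (E 0 * E b) = -(E a * E b) := by
          intro a b h0a
          rw [hE.anti 0 a h0a, neg_mul, mul_assoc, ← mul_assoc (E 0), hE.sq, one_mul]
        have h6 : (-(2 : ℂ)) • (e0 a b h : soE E) ∈ S := by
          refine hbr _ (h4 a ha) _ (h4 b hb) _ ?_
          change (-(2 : ℂ)) • (E a * E b) = E 0 * E a * (E 0 * E b) - E 0 * E b * (E 0 * E a)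
          rw [h5 a b ha, h5 b a hb, hE.anti b a (Ne.symm h)]
          module
        have h7 := S.smul_mem (-(1 / 2 : ℂ)) h6
        rw [smul_smul] at h7
        norm_num at h7
        exact h7
  have hall : soE E ≤ S.map (soE E).subtype := by
    refine Submodule.span_le.2 ?_
    rintro _ ⟨a, b, hab, rfl⟩
    exact ⟨e0 a b hab, hgen a b hab, rfl⟩
  intro x
  obtain ⟨y, hy, hyx⟩ := hall x.2
  have h5 : y = x := Subtype.ext hyx
  rw [← h5]
  exact hy

end

end Pool.Agent.N208.KP
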