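import Pool.Agent.N208.KP.Lk
import Pool.Agent.Y102.V15

set_option autoImplicit false
set_option linter.unusedSectionVars false

/-!
# Restriction to the image of an idempotent
-/

open Module Matrix TensorProduct

noncomputable section

namespace Pool.Agent.N208.KP

open Pool.Agent.Y102 Pool.Agent.Y102.SP Pool.Agent.W516.DR

section res

variable {U : Type} [AddCommGroup U] [Module ℂ U]

/-- The restriction of an operator to the image of an idempotent. -/
def res (p : Module.End ℂ U) :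
    Module.End ℂ U →ₗ[ℂ] Module.End ℂ (LinearMap.range p) where
  toFun x := p.rangeRestrict ∘ₗ x ∘ₗ (LinearMap.range p).subtype
  map_add' x y := by
    rw [LinearMap.add_comp, LinearMap.comp_add]
  map_smul' c x := by
    rw [LinearMap.smul_comp, LinearMap.comp_smul, RingHom.id_apply]

variable {p : Module.End ℂ U}

theorem res_val (x : Module.End ℂ U) (u : LinearMap.range p) : (res p x u).1 = p (x u.1) := rfl

theorem p_val (hp : p * p = p) (u : LinearMap.range p) : p u.1 = u.1 := by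
  obtain ⟨_, v, rfl⟩ := u
  exact LinearMap.congr_fun hp v

theorem res_one (hp : p * p = p) : res p 1 = 1 := by
  refine LinearMap.ext fun u => Subtype.ext ?_
  rw [res_val]
  exact p_val hp u

theorem res_self (hp : p * p = p) : res p p = 1 := by
  refine LinearMap.ext fun u => Subtype.ext ?_
  rw [res_val, p_val hp, p_val hp]
  rfl

theorem res_mul (hp : p * p = p) {x y : Module.End ℂ U} (hx : x * p = p * x) :
    res p (x * y) = res p x * res p y := by
  refine LinearMap.ext fun u => Subtype.ext ?_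
  change p (x (y u.1)) = p (x (p (y u.1)))
  have h1 : x (p (y u.1)) = p (x (y u.1)) := LinearMap.congr_fun hx (y u.1)
  have h2 : ∀ v, p (p v) = p v := fun v => LinearMap.congr_fun hp v
  rw [h1, h2]

theorem res_p_mul (hp : p * p = p) (x : Module.End ℂ U) : res p (p * x) = res p x := by
  refine LinearMap.ext fun u => Subtype.ext ?_
  change p (p (x u.1)) = p (x u.1)
  exact LinearMap.congr_fun hp (x u.1)

theorem res_zero_iff (hp : p * p = p) {x : Module.End ℂ U} (hx : x * p = p * x) :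
    res p x = 0 ↔ p * x = 0 := by
  constructor
  · intro h
    refine LinearMap.ext fun u => ?_
    have h1 := congrArg Subtype.val (LinearMap.congr_fun h ⟨p u, u, rfl⟩)
    rw [res_val] at h1
    have h2 : x (p u) = p (x u) := LinearMap.congr_fun hx u
    have h3 : p (p (x u)) = p (x u) := LinearMap.congr_fun hp (x u)
    change p (x (p u)) = 0 at h1
    rw [h2, h3] at h1
    exact h1
  · intro h
    rw [← res_p_mul hp, h, map_zero]

end res

section cmp_

variable {W : Type} [AddCommGroup W] [Module ℚ W] [FiniteDimensional ℚ W]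

theorem cmp_bc (lam : ℂ →ₗ[ℚ] ℚ) (P : Module.End ℚ W) (z : ℂ ⊗[ℚ] W) :
    cmp lam (P.baseChange ℂ z) = P (cmp lam z) := by
  induction z with
  | zero => rw [map_zero, map_zero, map_zero]
  | add a b ha hb => rw [map_add, map_add, map_add, map_add, ha, hb]
  | tmul a w => rw [LinearMap.baseChange_tmul, cmp_tmul, cmp_tmul, map_smul]

theorem cmpE_bc_mul (lam : ℂ →ₗ[ℚ] ℚ) (P : Module.End ℚ W) (Y : Module.End ℂ (ℂ ⊗[ℚ] W)) :
    cmpE lam (P.baseChange ℂ * Y) = P * cmpE lam Y := by
  refine LinearMap.ext fun w => ?_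
  rw [cmpE_apply, Module.End.mul_apply, cmp_bc, Module.End.mul_apply, cmpE_apply]

theorem cmpE_mul_bc (lam : ℂ →ₗ[ℚ] ℚ) (P : Module.End ℚ W) (Y : Module.End ℂ (ℂ ⊗[ℚ] W)) :
    cmpE lam (Y * P.baseChange ℂ) = cmpE lam Y * P := by
  refine LinearMap.ext fun w => ?_
  rw [cmpE_apply, Module.End.mul_apply, LinearMap.baseChange_tmul, Module.End.mul_apply,
    cmpE_apply]

theorem cmpE_zero (lam : ℂ →ₗ[ℚ] ℚ) : cmpE lam (0 : Module.End ℂ (ℂ ⊗[ℚ] W)) = 0 := by
  refine LinearMap.ext fun w => ?_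
  rw [cmpE_apply, LinearMap.zero_apply, map_zero, LinearMap.zero_apply]

/-- An element is zero if its components are. -/
theorem eq_zero_of_cmpE {Y : Module.End ℂ (ℂ ⊗[ℚ] W)} (h : ∀ lam : ℂ →ₗ[ℚ] ℚ, cmpE lam Y = 0) :
    Y = 0 := by
  have h1 := end_mem_span (fun P => P = 0) Y h
  unfold extEnd at h1
  have h2 : Submodule.span ℂ {P : Module.End ℂ (ℂ ⊗[ℚ] W) | ∃ P₀ : W →ₗ[ℚ] W, P₀ = 0 ∧
      P = P₀.baseChange ℂ} = ⊥ := by
    rw [Submodule.span_eq_bot]
    rintro _ ⟨P₀, rfl, rfl⟩
    exact LinearMap.baseChange_zero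
  rw [h2] at h1
  exact (Submodule.mem_bot ℂ).1 h1

/-- The elements of the complex span which are killed by an idempotent. -/
theorem cx_ker {S : Submodule ℚ (Module.End ℚ W)} {P Q : Module.End ℚ W}
    (h : ∀ X ∈ S, P * X = 0 → Q * X = 0) :
    ∀ Y ∈ cx S, P.baseChange ℂ * Y = 0 → Q.baseChange ℂ * Y = 0 := by
  intro Y hY h0
  have h1 : Y ∈ extEnd ℂ (fun X : W →ₗ[ℚ] W => X ∈ S ∧ P * X = 0) := by
    refine end_mem_span _ Y fun lam => ⟨cmp_of_ext S hY lam, ?_⟩
    rw [← cmpE_bc_mul, h0, cmpE_zero]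
  unfold extEnd at h1
  induction h1 using Submodule.span_induction with
  | mem Y hY' =>
    obtain ⟨X, ⟨hX, hPX⟩, rfl⟩ := hY'
    rw [← bc_mul, h X hX hPX, LinearMap.baseChange_zero]
  | zero => rw [mul_zero]
  | add a b ha' hb' ha hb =>
    have key : ∀ Z ∈ Submodule.span ℂ {Z : Module.End ℂ (ℂ ⊗[ℚ] W) | ∃ X : W →ₗ[ℚ] W,
        (X ∈ S ∧ P * X = 0) ∧ Z = X.baseChange ℂ}, Q.baseChange ℂ * Z = 0 := by
      intro Z hZ
      induction hZ using Submodule.span_induction with
      | mem Z hZ' =>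
        obtain ⟨X, ⟨hX, hPX⟩, rfl⟩ := hZ'
        rw [← bc_mul, h X hX hPX, LinearMap.baseChange_zero]
      | zero => rw [mul_zero]
      | add c d _ _ hc hd => rw [mul_add, hc, hd, add_zero]
      | smul t c _ hc => rw [mul_smul_comm, hc, smul_zero]
    rw [mul_add, key a ha', key b hb', add_zero]
  | smul t c hc' hc =>
    have key : ∀ Z ∈ Submodule.span ℂ {Z : Module.End ℂ (ℂ ⊗[ℚ] W) | ∃ X : W →ₗ[ℚ] W,
        (X ∈ S ∧ P * X = 0) ∧ Z = X.baseChange ℂ}, Q.baseChange ℂ * Z = 0 := by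
      intro Z hZ
      induction hZ using Submodule.span_induction with
      | mem Z hZ' =>
        obtain ⟨X, ⟨hX, hPX⟩, rfl⟩ := hZ'
        rw [← bc_mul, h X hX hPX, LinearMap.baseChange_zero]
      | zero => rw [mul_zero]
      | add c d _ _ hc hd => rw [mul_add, hc, hd, add_zero]
      | smul t c _ hc => rw [mul_smul_comm, hc, smul_zero]
    rw [mul_smul_comm, key c hc', smul_zero]

end cmp_

end Pool.Agent.N208.KP
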