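import Pool.Agent.N208.KP.Sk

set_option autoImplicit false
set_option linter.unusedSectionVars false

/-!
# Characterization of the infinitesimal rotations of a plane
-/

open Module Matrix

noncomputable section

namespace Pool.Agent.N208.KP

variable {n : ℕ}

/-- The elementary skew-symmetric matrix. -/
def eab (a b : Fin n) : Matrix (Fin n) (Fin n) ℂ := Matrix.single a b 1 - Matrix.single b a 1

theorem eab_mem (a b : Fin n) : eab a b ∈ Sk n := by
  rw [mem_Sk]
  unfold eab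
  rw [Matrix.transpose_sub, Matrix.transpose_single, Matrix.transpose_single, neg_sub]

theorem mm_single (A B : Matrix (Fin n) (Fin n) ℂ) (a b c d : Fin n) :
    mm A B (Matrix.single a b 1) c d = A c a * B b d := by
  rw [mm_apply, Matrix.mul_apply, Finset.sum_eq_single a]
  · rw [single_mul_apply', if_pos rfl]
  · intro x _ hx
    rw [single_mul_apply', if_neg hx, mul_zero]
  · intro h
    exact absurd (Finset.mem_univ _) h

/-- The contraction. -/
theorem contr_mm (A B : Matrix (Fin n) (Fin n) ℂ) (a c : Fin n) :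
    ∑ b, mm A B (eab a b) c b = A c a * B.trace - (A * Bᵀ) c a := by
  have h1 : ∀ b, mm A B (eab a b) c b = A c a * B b b - A c b * B a b := by
    intro b
    unfold eab
    rw [map_sub, Matrix.sub_apply, mm_single, mm_single]
  rw [Finset.sum_congr rfl fun b _ => h1 b, Finset.sum_sub_distrib, ← Finset.mul_sum,
    Matrix.mul_apply]
  rfl

theorem trace_skew {X : Matrix (Fin n) (Fin n) ℂ} (hX : X ∈ Sk n) : X.trace = 0 := by
  have h1 := congrArg Matrix.trace (mem_Sk.1 hX)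
  rw [Matrix.trace_transpose, Matrix.trace_neg] at h1
  linear_combination (1 / 2 : ℂ) * h1

/-- If the cube of the commutator with `Y` is minus the commutator. -/
theorem contr {Y : Sk n} (h : ∀ Z, adS Y (adS Y (adS Y Z)) = -adS Y Z) :
    ((n : ℂ) - 8) • (Y.1 * Y.1 * Y.1) + ((n : ℂ) - 2 + 3 * (Y.1 * Y.1).trace) • Y.1 = 0 := by
  obtain ⟨Y, hY⟩ := Y
  have hYt := mem_Sk.1 hY
  have h2t : (Y * Y)ᵀ = Y * Y := by
    rw [Matrix.transpose_mul, hYt, Matrix.neg_mul, Matrix.mul_neg, neg_neg]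
  have h3t : (Y * Y * Y)ᵀ = -(Y * Y * Y) := by
    rw [Matrix.transpose_mul, h2t, hYt, Matrix.neg_mul, Matrix.mul_assoc]
  have htr : Y.trace = 0 := trace_skew hY
  have htr3 : (Y * Y * Y).trace = 0 := trace_skew (mem_Sk.2 h3t)
  have h1 : ∀ Z ∈ Sk n, (mm (Y * Y * Y) 1 - (3 : ℂ) • mm (Y * Y) Y + (3 : ℂ) • mm Y (Y * Y) -
      mm 1 (Y * Y * Y) + mm Y 1 - mm 1 Y) Z = 0 := by
    intro Z hZ
    have h2 := congrArg Subtype.val (h ⟨Z, hZ⟩)
    rw [adS_val, adS_val] at h2
    change _ = -(Y * Z - Z * Y) at h2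
    change Y * (Y * (Y * Z - Z * Y) - (Y * Z - Z * Y) * Y) -
      (Y * (Y * Z - Z * Y) - (Y * Z - Z * Y) * Y) * Y = -(Y * Z - Z * Y) at h2
    change Y * Y * Y * (Z * 1) - (3 : ℂ) • (Y * Y * (Z * Y)) + (3 : ℂ) • (Y * (Z * (Y * Y))) -
      1 * (Z * (Y * Y * Y)) + Y * (Z * 1) - 1 * (Z * Y) = 0
    have h3 : Y * Y * Y * (Z * 1) - (3 : ℂ) • (Y * Y * (Z * Y)) + (3 : ℂ) • (Y * (Z * (Y * Y))) -
      1 * (Z * (Y * Y * Y)) + Y * (Z * 1) - 1 * (Z * Y) =
        (Y * (Y * (Y * Z - Z * Y) - (Y * Z - Z * Y) * Y) -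
        (Y * (Y * Z - Z * Y) - (Y * Z - Z * Y) * Y) * Y) + (Y * Z - Z * Y) := by
      simp only [Matrix.mul_one, Matrix.one_mul, Matrix.mul_sub, Matrix.sub_mul, Matrix.mul_assoc]
      module
    rw [h3, h2, neg_add_cancel]
  ext c a
  rw [Matrix.zero_apply]
  have h4 : ∑ b, (mm (Y * Y * Y) 1 - (3 : ℂ) • mm (Y * Y) Y + (3 : ℂ) • mm Y (Y * Y) -
      mm 1 (Y * Y * Y) + mm Y 1 - mm 1 Y) (eab a b) c b = 0 :=
    Finset.sum_eq_zero fun b _ => by rw [h1 _ (eab_mem a b), Matrix.zero_apply]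
  simp only [LinearMap.sub_apply, LinearMap.add_apply, LinearMap.smul_apply, Matrix.sub_apply,
    Matrix.add_apply, Matrix.smul_apply, smul_eq_mul, Finset.sum_sub_distrib,
    Finset.sum_add_distrib, ← Finset.mul_sum, contr_mm] at h4
  have h5 : (1 : Matrix (Fin n) (Fin n) ℂ).trace = n := by
    rw [Matrix.trace_one, Fintype.card_fin]
  rw [h5, htr, htr3, h2t, h3t, hYt, Matrix.transpose_one, Matrix.mul_one, Matrix.mul_one,
    Matrix.one_mul, Matrix.one_mul, Matrix.mul_neg, Matrix.neg_apply, Matrix.neg_apply] at h4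
  change ((n : ℂ) - 8) * (Y * Y * Y) c a + ((n : ℂ) - 2 + 3 * (Y * Y).trace) * Y c a = 0
  rw [← Matrix.mul_assoc Y Y Y] at h4
  linear_combination h4

/-- The scalar product. -/
theorem rot {Y : Matrix (Fin n) (Fin n) ℂ} (hY : Y ∈ Sk n) (h3 : Y * Y * Y = -Y)
    (ht : (Y * Y).trace = -2) : ∃ u v : Fin n → ℂ, u ⬝ᵥ u = 1 ∧ v ⬝ᵥ v = 1 ∧ u ⬝ᵥ v = 0 ∧
      Y = Matrix.vecMulVec v u - Matrix.vecMulVec u v := by
  have hYt := mem_Sk.1 hY
  set Q : Matrix (Fin n) (Fin n) ℂ := -(Y * Y) with hQ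
  have hQt : Qᵀ = Q := by
    rw [hQ, Matrix.transpose_neg, Matrix.transpose_mul, hYt, Matrix.neg_mul, Matrix.mul_neg,
      neg_neg]
  have hQY : Q * Y = Y := by rw [hQ, Matrix.neg_mul, h3, neg_neg]
  have hYQ : Y * Q = Y := by rw [hQ, Matrix.mul_neg, ← Matrix.mul_assoc, h3, neg_neg]
  have hQQ : Q * Q = Q := by
    rw [hQ, Matrix.mul_neg, Matrix.neg_mul, neg_neg, Matrix.mul_assoc, ← Matrix.mul_assoc Y Y Y,
      h3, Matrix.mul_neg]
  have hQtr : Q.trace = 2 := by rw [hQ, Matrix.trace_neg, ht, neg_neg]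
  obtain ⟨i, hi⟩ : ∃ i, Q i i ≠ 0 := by
    by_contra hcon
    push Not at hcon
    have h0 : Q.trace = 0 := Finset.sum_eq_zero fun i _ => hcon i
    rw [hQtr] at h0
    norm_num at h0
  obtain ⟨s, hs⟩ : ∃ s : ℂ, s * s = Q i i := by
    obtain ⟨s, hs⟩ := IsAlgClosed.exists_pow_nat_eq (Q i i) (n := 2) (by norm_num)
    exact ⟨s, by rw [← hs, sq]⟩
  have hs0 : s ≠ 0 := by
    rintro rfl
    rw [mul_zero] at hs
    exact hi hs.symm
  let u : Fin n → ℂ := fun a => Q a i / s
  let v : Fin n → ℂ := fun a => Y a i / s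
  have hsym : ∀ a b, Q a b = Q b a := fun a b => congrFun (congrFun hQt b) a
  have hskew : ∀ a b, Y a b = -Y b a := fun a b => congrFun (congrFun hYt b) a
  have huu : u ⬝ᵥ u = 1 := by
    have h1 : u ⬝ᵥ u = (Q * Q) i i / (s * s) := by
      rw [Matrix.mul_apply, Finset.sum_div]
      refine Finset.sum_congr rfl fun a _ => ?_
      change Q a i / s * (Q a i / s) = _
      rw [hsym i a]
      ring
    rw [h1, hQQ, hs, div_self hi]
  have hvv : v ⬝ᵥ v = 1 := by
    have h1 : v ⬝ᵥ v = Q i i / (s * s) := by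
      rw [hQ, Matrix.neg_apply, Matrix.mul_apply, ← Finset.sum_neg_distrib, Finset.sum_div]
      refine Finset.sum_congr rfl fun a _ => ?_
      change Y a i / s * (Y a i / s) = _
      rw [hskew i a]
      ring
    rw [h1, hs, div_self hi]
  have huv : u ⬝ᵥ v = 0 := by
    have h1 : u ⬝ᵥ v = (Q * Y) i i / (s * s) := by
      rw [Matrix.mul_apply, Finset.sum_div]
      refine Finset.sum_congr rfl fun a _ => ?_
      change Q a i / s * (Y a i / s) = _
      rw [hsym i a]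
      ring
    have h2 : Y i i = 0 := by
      have h3 := hskew i i
      linear_combination (1 / 2 : ℂ) * h3
    rw [h1, hQY, h2, zero_div]
  have hvu : v ⬝ᵥ u = 0 := by rw [dotProduct_comm, huv]
  -- actions on the vectors
  have hQu : Q *ᵥ u = u := by
    funext a
    change ∑ b, Q a b * (Q b i / s) = Q a i / s
    conv_rhs => rw [← hQQ, Matrix.mul_apply, Finset.sum_div]
    exact Finset.sum_congr rfl fun b _ => by ring
  have hQv : Q *ᵥ v = v := by
    funext a
    change ∑ b, Q a b * (Y b i / s) = Y a i / s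
    conv_rhs => rw [← hQY, Matrix.mul_apply, Finset.sum_div]
    exact Finset.sum_congr rfl fun b _ => by ring
  have hYu : Y *ᵥ u = v := by
    funext a
    change ∑ b, Y a b * (Q b i / s) = Y a i / s
    conv_rhs => rw [← hYQ, Matrix.mul_apply, Finset.sum_div]
    exact Finset.sum_congr rfl fun b _ => by ring
  have hYv : Y *ᵥ v = -u := by
    funext a
    change ∑ b, Y a b * (Y b i / s) = -(Q a i / s)
    rw [hQ, Matrix.neg_apply, Matrix.mul_apply, neg_div, neg_neg, Finset.sum_div]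
    exact Finset.sum_congr rfl fun b _ => by ring
  have huQ : u ᵥ* Q = u := by rw [← Matrix.mulVec_transpose, hQt, hQu]
  have hvQ : v ᵥ* Q = v := by rw [← Matrix.mulVec_transpose, hQt, hQv]
  have huY : u ᵥ* Y = -v := by
    rw [← Matrix.mulVec_transpose, hYt, Matrix.neg_mulVec, hYu]
  have hvY : v ᵥ* Y = u := by
    rw [← Matrix.mulVec_transpose, hYt, Matrix.neg_mulVec, hYv, neg_neg]
  -- the idempotent
  set R : Matrix (Fin n) (Fin n) ℂ := Q - Matrix.vecMulVec u u - Matrix.vecMulVec v v with hR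
  have e1 : ∀ a b c : Fin n → ℂ, Matrix.vecMulVec a b *ᵥ c = (b ⬝ᵥ c) • a := by
    intro a b c
    funext x
    change ∑ y, a x * b y * c y = (∑ y, b y * c y) * a x
    rw [Finset.sum_mul]
    exact Finset.sum_congr rfl fun y _ => by ring
  have hRu : R *ᵥ u = 0 := by
    rw [hR, Matrix.sub_mulVec, Matrix.sub_mulVec, e1, e1, hQu, huu, hvu, one_smul, zero_smul,
      sub_zero, sub_self]
  have hRv : R *ᵥ v = 0 := by
    rw [hR, Matrix.sub_mulVec, Matrix.sub_mulVec, e1, e1, hQv, huv, hvv, one_smul, zero_smul,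
      sub_zero, sub_self]
  have hRR : R * R = R := by
    have h1 : R * R = R * Q := by
      conv_lhs => rw [hR]
      rw [← hR, Matrix.mul_sub, Matrix.mul_sub, Matrix.mul_vecMulVec, Matrix.mul_vecMulVec, hRu,
        hRv, Matrix.zero_vecMulVec, Matrix.zero_vecMulVec, sub_zero, sub_zero]
    have h2 : R * Q = R := by
      conv_lhs => rw [hR]
      rw [Matrix.sub_mul, Matrix.sub_mul, Matrix.vecMulVec_mul, Matrix.vecMulVec_mul, huQ, hvQ,
        hQQ, ← hR]
    rw [h1, h2]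
  have hRtr : R.trace = 0 := by
    rw [hR, Matrix.trace_sub, Matrix.trace_sub, Matrix.trace_vecMulVec, Matrix.trace_vecMulVec,
      hQtr, huu, hvv]
    norm_num
  have hR0 : R = 0 := by
    have h1 : IsIdempotentElem (Matrix.toLin' R) := by
      rw [IsIdempotentElem, Module.End.mul_eq_comp, ← Matrix.toLin'_mul, hRR]
    have h2 : LinearMap.trace ℂ _ (Matrix.toLin' R) = 0 := by
      rw [Matrix.trace_toLin'_eq, hRtr]
    have h3 := LinearMap.IsIdempotentElem.eq_zero_of_trace_eq_zero h1 h2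
    exact (LinearEquiv.map_eq_zero_iff _).1 h3
  have hQe : Q = Matrix.vecMulVec u u + Matrix.vecMulVec v v := by
    rw [hR, sub_sub] at hR0
    exact sub_eq_zero.1 hR0
  refine ⟨u, v, huu, hvv, huv, ?_⟩
  rw [← hQY]
  conv_lhs => rw [hQe]
  rw [Matrix.add_mul, Matrix.vecMulVec_mul, Matrix.vecMulVec_mul, huY, hvY]
  ext x y
  simp [Matrix.vecMulVec_apply]
  ring

end Pool.Agent.N208.KP
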