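import Mathlib

set_option autoImplicit false
set_option linter.unusedSectionVars false

/-!
# Skew-symmetric matrices: traces
-/

open Module Matrix

noncomputable section

namespace Pool.Agent.N208.KP

variable {n : ℕ}

/-- The skew-symmetric matrices. -/
def Sk (n : ℕ) : Submodule ℂ (Matrix (Fin n) (Fin n) ℂ) where
  carrier := {X | Xᵀ = -X}
  zero_mem' := by
    change (0 : Matrix (Fin n) (Fin n) ℂ)ᵀ = -0
    rw [Matrix.transpose_zero, neg_zero]
  add_mem' := by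
    intro X Y hX hY
    change (X + Y)ᵀ = -(X + Y)
    rw [Matrix.transpose_add, hX, hY, neg_add]
  smul_mem' := by
    intro c X hX
    change (c • X)ᵀ = -(c • X)
    rw [Matrix.transpose_smul, hX, smul_neg]

theorem mem_Sk {X : Matrix (Fin n) (Fin n) ℂ} : X ∈ Sk n ↔ Xᵀ = -X := Iff.rfl

/-- The trace of an endomorphism of the space of matrices. -/
theorem tr_mat (f : Matrix (Fin n) (Fin n) ℂ →ₗ[ℂ] Matrix (Fin n) (Fin n) ℂ) :
    LinearMap.trace ℂ _ f = ∑ i, ∑ j, f (Matrix.single i j 1) i j := by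
  rw [LinearMap.trace_eq_matrix_trace ℂ (Matrix.stdBasis ℂ (Fin n) (Fin n)), Matrix.trace,
    Fintype.sum_prod_type]
  refine Finset.sum_congr rfl fun i _ => Finset.sum_congr rfl fun j _ => ?_
  rw [Matrix.diag_apply, LinearMap.toMatrix_apply, Matrix.stdBasis_eq_single]
  rfl

/-- The map `Z ↦ A Z B`. -/
def mm (A B : Matrix (Fin n) (Fin n) ℂ) :
    Matrix (Fin n) (Fin n) ℂ →ₗ[ℂ] Matrix (Fin n) (Fin n) ℂ :=
  LinearMap.mulLeft ℂ A ∘ₗ LinearMap.mulRight ℂ B

theorem mm_apply (A B Z : Matrix (Fin n) (Fin n) ℂ) : mm A B Z = A * (Z * B) := rfl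

/-- The transposition. -/
def tt (n : ℕ) : Matrix (Fin n) (Fin n) ℂ →ₗ[ℂ] Matrix (Fin n) (Fin n) ℂ where
  toFun Z := Zᵀ
  map_add' := Matrix.transpose_add
  map_smul' c Z := Matrix.transpose_smul c Z

theorem tt_apply (Z : Matrix (Fin n) (Fin n) ℂ) : tt n Z = Zᵀ := rfl

theorem single_mul_apply' (B : Matrix (Fin n) (Fin n) ℂ) (i j a b : Fin n) :
    (Matrix.single i j (1 : ℂ) * B) a b = if a = i then B j b else 0 := by
  rw [Matrix.mul_apply]
  by_cases h : a = i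
  · subst h
    rw [if_pos rfl, Finset.sum_eq_single j]
    · rw [Matrix.single_apply_same, one_mul]
    · intro c _ hc
      rw [Matrix.single_apply_of_ne _ _ _ _ _ (fun h => hc h.2.symm), zero_mul]
    · intro h
      exact absurd (Finset.mem_univ _) h
  · rw [if_neg h]
    refine Finset.sum_eq_zero fun c _ => ?_
    rw [Matrix.single_apply_of_ne _ _ _ _ _ (fun h' => h h'.1.symm), zero_mul]

theorem tr_mm (A B : Matrix (Fin n) (Fin n) ℂ) :
    LinearMap.trace ℂ _ (mm A B) = A.trace * B.trace := by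
  rw [tr_mat, Matrix.trace, Matrix.trace, Finset.sum_mul_sum]
  refine Finset.sum_congr rfl fun i _ => Finset.sum_congr rfl fun j _ => ?_
  rw [mm_apply, Matrix.mul_apply, Finset.sum_eq_single i]
  · rw [single_mul_apply', if_pos rfl]
    rfl
  · intro a _ ha
    rw [single_mul_apply', if_neg ha, mul_zero]
  · intro h
    exact absurd (Finset.mem_univ _) h

theorem tr_mm_tt (A B : Matrix (Fin n) (Fin n) ℂ) :
    LinearMap.trace ℂ _ (mm A B ∘ₗ tt n) = (A * Bᵀ).trace := by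
  rw [tr_mat, Matrix.trace]
  refine Finset.sum_congr rfl fun i _ => ?_
  rw [Matrix.diag_apply, Matrix.mul_apply]
  refine Finset.sum_congr rfl fun j _ => ?_
  rw [LinearMap.comp_apply, tt_apply, Matrix.transpose_single, mm_apply, Matrix.mul_apply,
    Finset.sum_eq_single j]
  · rw [single_mul_apply', if_pos rfl, Matrix.transpose_apply]
  · intro a _ ha
    rw [single_mul_apply', if_neg ha, mul_zero]
  · intro h
    exact absurd (Finset.mem_univ _) h

/-- The projection to the skew-symmetric matrices. -/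
def prS (n : ℕ) : Matrix (Fin n) (Fin n) ℂ →ₗ[ℂ] Sk n :=
  LinearMap.codRestrict (Sk n) ((1 / 2 : ℂ) • (LinearMap.id - tt n)) fun Z => by
    rw [mem_Sk]
    change ((1 / 2 : ℂ) • (Z - Zᵀ))ᵀ = -((1 / 2 : ℂ) • (Z - Zᵀ))
    rw [Matrix.transpose_smul, Matrix.transpose_sub, Matrix.transpose_transpose, ← smul_neg,
      neg_sub]

theorem prS_val (Z : Matrix (Fin n) (Fin n) ℂ) : (prS n Z).1 = (1 / 2 : ℂ) • (Z - Zᵀ) := rfl

theorem prS_of_mem {Z : Matrix (Fin n) (Fin n) ℂ} (hZ : Z ∈ Sk n) : prS n Z = ⟨Z, hZ⟩ := by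
  apply Subtype.ext
  rw [prS_val, mem_Sk.1 hZ, sub_neg_eq_add, ← two_smul ℂ Z, smul_smul]
  norm_num

/-- The trace of an endomorphism of the space of the skew-symmetric matrices. -/
theorem tr_Sk (F : Matrix (Fin n) (Fin n) ℂ →ₗ[ℂ] Matrix (Fin n) (Fin n) ℂ)
    (f : Sk n →ₗ[ℂ] Sk n) (h : ∀ Z : Sk n, (f Z).1 = F Z.1) :
    LinearMap.trace ℂ _ f =
      (1 / 2 : ℂ) * (LinearMap.trace ℂ _ F - LinearMap.trace ℂ _ (F ∘ₗ tt n)) := by
  have h1 : f = prS n ∘ₗ (F ∘ₗ (Sk n).subtype) := by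
    refine LinearMap.ext fun Z => ?_
    have h2 : F Z.1 ∈ Sk n := by
      rw [← h Z]
      exact (f Z).2
    change f Z = prS n (F Z.1)
    rw [prS_of_mem h2]
    exact Subtype.ext (h Z)
  have h3 : (F ∘ₗ (Sk n).subtype) ∘ₗ prS n = (1 / 2 : ℂ) • (F - F ∘ₗ tt n) := by
    refine LinearMap.ext fun Z => ?_
    change F ((1 / 2 : ℂ) • (Z - Zᵀ)) = (1 / 2 : ℂ) • (F Z - F Zᵀ)
    rw [map_smul, map_sub]
  rw [h1, LinearMap.trace_comp_comm', h3, map_smul, map_sub, smul_eq_mul]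

/-- The commutator with a skew-symmetric matrix. -/
def adS (X : Sk n) : Sk n →ₗ[ℂ] Sk n :=
  LinearMap.restrict (LinearMap.mulLeft ℂ X.1 - LinearMap.mulRight ℂ X.1) fun Z hZ => by
    rw [mem_Sk] at hZ ⊢
    change (X.1 * Z - Z * X.1)ᵀ = -(X.1 * Z - Z * X.1)
    rw [Matrix.transpose_sub, Matrix.transpose_mul, Matrix.transpose_mul, hZ, mem_Sk.1 X.2,
      Matrix.neg_mul, Matrix.neg_mul, Matrix.mul_neg, Matrix.mul_neg, neg_neg, neg_neg, neg_sub]

theorem adS_val (X Z : Sk n) : (adS X Z).1 = X.1 * Z.1 - Z.1 * X.1 := rfl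

/-- The Killing form. -/
theorem killing (X : Sk n) :
    LinearMap.trace ℂ _ (adS X ∘ₗ adS X) = ((n : ℂ) - 2) * (X.1 * X.1).trace := by
  have h0 : X.1.trace = 0 := by
    have h1 := congrArg Matrix.trace (mem_Sk.1 X.2)
    rw [Matrix.trace_transpose, Matrix.trace_neg] at h1
    linear_combination (1 / 2 : ℂ) * h1
  have h2 : (1 : Matrix (Fin n) (Fin n) ℂ).trace = n := by
    rw [Matrix.trace_one, Fintype.card_fin]
  rw [tr_Sk (mm (X.1 * X.1) 1 - (2 : ℂ) • mm X.1 X.1 + mm 1 (X.1 * X.1)) _ fun Z => ?_]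
  · rw [LinearMap.add_comp, LinearMap.sub_comp, LinearMap.smul_comp, map_add, map_sub, map_smul,
      map_add, map_sub, map_smul, tr_mm, tr_mm, tr_mm, tr_mm_tt, tr_mm_tt, tr_mm_tt, h0, h2,
      Matrix.transpose_one, Matrix.mul_one, Matrix.one_mul, Matrix.transpose_mul, mem_Sk.1 X.2,
      Matrix.mul_neg, Matrix.neg_mul, Matrix.trace_neg, Matrix.mul_neg, neg_neg, smul_eq_mul,
      smul_eq_mul]
    ring
  · change (adS X (adS X Z)).1 = X.1 * X.1 * (Z.1 * 1) - (2 : ℂ) • (X.1 * (Z.1 * X.1)) +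
      1 * (Z.1 * (X.1 * X.1))
    rw [adS_val, adS_val, Matrix.mul_one, Matrix.one_mul, Matrix.mul_sub, Matrix.sub_mul,
      two_smul]
    simp only [Matrix.mul_assoc]
    abel

/-- The dimension. -/
theorem finrank_Sk : (finrank ℂ (Sk n) : ℂ) = (1 / 2 : ℂ) * ((n : ℂ) * n - n) := by
  have h2 : (1 : Matrix (Fin n) (Fin n) ℂ).trace = n := by
    rw [Matrix.trace_one, Fintype.card_fin]
  rw [← LinearMap.trace_id ℂ (Sk n), tr_Sk (mm 1 1) _ fun Z => ?_, tr_mm, tr_mm_tt,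
    Matrix.transpose_one, Matrix.mul_one, h2]
  rw [mm_apply, Matrix.one_mul, Matrix.mul_one]
  rfl

end Pool.Agent.N208.KP
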