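import Pool.Agent.N208.KP.Cliff

set_option autoImplicit false
set_option linter.unusedSectionVars false

/-!
# The image of a rotation under an isomorphism of orthogonal Lie algebras
-/

open Module Matrix

noncomputable section

namespace Pool.Agent.N208.KP

open Pool.Agent.Y102.SP

variable {U W : Type} [AddCommGroup U] [Module ℂ U] [AddCommGroup W] [Module ℂ W]
  [FiniteDimensional ℂ U] [Nontrivial U] [FiniteDimensional ℂ W] [Nontrivial W] {n m : ℕ}
  {E : Fin n → Module.End ℂ U} {F : Fin m → Module.End ℂ W}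

/-- The isomorphism respects the brackets. -/
def LieIso {S : Submodule ℂ (Module.End ℂ U)} {T : Submodule ℂ (Module.End ℂ W)}
    (θ : S ≃ₗ[ℂ] T) : Prop :=
  ∀ x y z : S, z.1 = x.1 * y.1 - y.1 * x.1 → (θ z).1 = (θ x).1 * (θ y).1 - (θ y).1 * (θ x).1

theorem LieIso.symm {S : Submodule ℂ (Module.End ℂ U)} {T : Submodule ℂ (Module.End ℂ W)}
    {θ : S ≃ₗ[ℂ] T} (h : LieIso θ) (hS : ∀ x ∈ S, ∀ y ∈ S, x * y - y * x ∈ S) :
    LieIso θ.symm := by
  intro x y z hz
  obtain ⟨x, rfl⟩ := θ.surjective x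
  obtain ⟨y, rfl⟩ := θ.surjective y
  obtain ⟨z, rfl⟩ := θ.surjective z
  rw [θ.symm_apply_apply, θ.symm_apply_apply, θ.symm_apply_apply]
  have h1 := h x y ⟨_, hS x.1 x.2 y.1 y.2⟩ rfl
  rw [← hz] at h1
  have h2 := θ.injective (Subtype.ext h1)
  exact (congrArg Subtype.val h2).symm

section th

variable (hE : CE E) (hF : CE F) (θ : soE E ≃ₗ[ℂ] soE F)

/-- The isomorphism in terms of matrices. -/
def mth : Sk n ≃ₗ[ℂ] Sk m := (sqE hE).trans (θ.trans (sqE hF).symm)

theorem mth_spec (X : Sk n) : qE F (mth hE hF θ X).1 = (θ (sqE hE X)).1 := by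
  rw [← sqE_val hF]
  unfold mth
  rw [LinearEquiv.trans_apply, LinearEquiv.trans_apply, LinearEquiv.apply_symm_apply]

theorem adS_sqE (X Z : Sk n) : (sqE hE (adS X Z)).1 = (sqE hE X).1 * (sqE hE Z).1 -
    (sqE hE Z).1 * (sqE hE X).1 := by
  rw [sqE_val, adS_val, qE_lie hE X.2]
  rfl

include hE in
theorem sqE_ext {X Y : Sk n} (h : (sqE hE X).1 = (sqE hE Y).1) : X = Y :=
  (sqE hE).injective (Subtype.ext h)

variable {θ}

theorem mth_ad (hθ : LieIso θ) (X Z : Sk n) :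
    mth hE hF θ (adS X Z) = adS (mth hE hF θ X) (mth hE hF θ Z) := by
  apply sqE_ext hF
  rw [adS_sqE hF, sqE_val, sqE_val, sqE_val, mth_spec, mth_spec, mth_spec]
  exact hθ _ _ _ (adS_sqE hE X Z)

theorem mth_tr (hθ : LieIso θ) (X : Sk n) :
    LinearMap.trace ℂ _ (adS (mth hE hF θ X) ∘ₗ adS (mth hE hF θ X)) =
      LinearMap.trace ℂ _ (adS X ∘ₗ adS X) := by
  rw [← LinearMap.trace_conj' (adS X ∘ₗ adS X) (mth hE hF θ)]
  congr 1
  refine LinearMap.ext fun Z => ?_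
  rw [LinearEquiv.conj_apply_apply, LinearMap.comp_apply, LinearMap.comp_apply,
    mth_ad hE hF hθ, mth_ad hE hF hθ, LinearEquiv.apply_symm_apply]

include hE hF in
/-- The sizes are equal. -/
theorem size_eq (θ : soE E ≃ₗ[ℂ] soE F) (hn : 3 ≤ n) (hm : 3 ≤ m) : n = m := by
  have h1 := LinearEquiv.finrank_eq (mth hE hF θ)
  have h2 := finrank_Sk (n := n)
  rw [h1, finrank_Sk] at h2
  have h3 : ((m : ℂ) - n) * (m + n - 1) = 0 := by linear_combination 2 * h2
  rcases mul_eq_zero.1 h3 with h4 | h4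
  · have h5 : (m : ℂ) = n := sub_eq_zero.1 h4
    exact_mod_cast h5.symm
  · exfalso
    have h5 : ((m + n : ℕ) : ℂ) = ((1 : ℕ) : ℂ) := by
      push_cast
      linear_combination h4
    have h6 : m + n = 1 := by exact_mod_cast h5
    omega

include hE hF in
/-- **The image of a rotation has the square `-1/4`.** -/
theorem th_rot (hθ : LieIso θ) (hn : 3 ≤ n) (hm : 3 ≤ m) (h8 : n ≠ 8) {u v : Fin n → ℂ}
    (huu : u ⬝ᵥ u = 1) (hvv : v ⬝ᵥ v = 1) (huv : u ⬝ᵥ v = 0) {x : soE E}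
    (hx : x.1 = qE E (rt u v)) :
    (θ x).1 * (θ x).1 = (-1 / 4 : ℂ) • (1 : Module.End ℂ W) := by
  have hnm := size_eq hE hF θ hn hm
  subst hnm
  set X : Sk n := ⟨rt u v, rt_mem u v⟩ with hX
  have hxX : x = sqE hE X := Subtype.ext hx
  set Y := mth hE hF θ X with hY
  have hcube : ∀ Z, adS Y (adS Y (adS Y Z)) = -adS Y Z := by
    intro Z
    obtain ⟨Z, rfl⟩ := (mth hE hF θ).surjective Z
    rw [hY, ← mth_ad hE hF hθ, ← mth_ad hE hF hθ, ← mth_ad hE hF hθ, ← map_neg]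
    congr 1
    apply sqE_ext hE
    rw [adS_sqE hE, adS_sqE hE, adS_sqE hE, map_neg, Submodule.coe_neg, adS_sqE hE]
    exact ad_cube (rt_sq hE huu hvv huv)
  have htr : (Y.1 * Y.1).trace = -2 := by
    have h1 := mth_tr hE hF hθ X
    rw [killing, killing, rt_tr huu hvv huv] at h1
    have h2 : ((n : ℂ) - 2) ≠ 0 := by
      intro h3
      have h4 : (n : ℂ) = ((2 : ℕ) : ℂ) := by
        push_cast
        linear_combination h3
      have h5 : n = 2 := by exact_mod_cast h4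
      omega
    exact mul_left_cancel₀ h2 h1
  have h3 := contr hcube
  rw [htr] at h3
  have h4 : ((n : ℂ) - 8) • (Y.1 * Y.1 * Y.1 + Y.1) = 0 := by
    rw [smul_add, ← h3]
    congr 2
    ring
  have h5 : ((n : ℂ) - 8) ≠ 0 := by
    intro h6
    have h7 : (n : ℂ) = ((8 : ℕ) : ℂ) := by
      push_cast
      linear_combination h6
    exact h8 (by exact_mod_cast h7)
  have h6 := (smul_eq_zero.1 h4).resolve_left h5
  obtain ⟨u', v', e1, e2, e3, e4⟩ := rot Y.2 (eq_neg_of_add_eq_zero_left h6) htr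
  rw [hxX, ← mth_spec hE hF, ← hY, e4]
  exact rt_sq hF e1 e2 e3

end th

end Pool.Agent.N208.KP
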